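import Mathlib
import Pool.Agent.W2helper76.RW.Circuit

/-!
# Exact Triangle and random circuits: definitions

The circuits (`Pool.Agent.W2helper76.RW.Circuit`) have AND and OR gates of fan-in two and NOT gates;
`numNot` is the number of the NOT gates, `s` is the number of all gates.
-/

set_option autoImplicit false

namespace Pool.Agent.W2helper95.ET

open Pool.Agent.W2helper76.RW

/-- The graph with the edge flags `x` has a triangle of total weight zero: three distinct vertices
which are pairwise joined by edges whose weights have the sum zero. -/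
def HasZeroTriangle {V : Type} (W : Sym2 V → ℤ) (x : Sym2 V → Bool) : Prop :=
  ∃ i j k : V, i ≠ j ∧ j ≠ k ∧ i ≠ k ∧ x s(i, j) = true ∧ x s(j, k) = true ∧ x s(i, k) = true ∧
    W s(i, j) + W s(j, k) + W s(i, k) = 0

/-- The number of the triangles of total weight zero in the complete graph with the weights `W`. -/
noncomputable def numZero {V : Type} (W : Sym2 V → ℤ) : ℕ :=
  {K : Finset V | ∃ i j k : V, i ≠ j ∧ j ≠ k ∧ i ≠ k ∧ (∀ v, v ∈ K ↔ v = i ∨ v = j ∨ v = k) ∧
    W s(i, j) + W s(j, k) + W s(i, k) = 0}.ncard

/-- The number of the AND gates of a circuit. -/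
noncomputable def numAnd {I : Type} (C : Circuit I) : ℕ :=
  {i : Fin C.s | ∃ a b, C.gate i = Gate.and a b}.ncard

open Classical in
/-- The probability that the random circuit accepts the input `x`; it is `C ω` with probability
`p ω`. -/
noncomputable def accProb {I Ω : Type} [Fintype Ω] (p : Ω → ℝ) (C : Ω → Circuit I)
    (x : I → Bool) : ℝ := ∑ ω, p ω * (if (C ω).eval x = true then 1 else 0)

/-- The random circuit decides with gap `δ` whether a graph, given by its edge flags, has a
triangle of total weight zero for the weights `W`: for some `θ` it accepts the graphs with such a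
triangle with probability at least `θ + δ`, and the other graphs with probability at most `θ`. -/
def Decides {V Ω : Type} [Fintype Ω] (δ : ℝ) (W : Sym2 V → ℤ) (p : Ω → ℝ)
    (C : Ω → Circuit (Sym2 V)) : Prop :=
  (∀ ω, 0 ≤ p ω) ∧ ∑ ω, p ω = 1 ∧ ∃ θ : ℝ, ∀ x : Sym2 V → Bool,
    (HasZeroTriangle W x → θ + δ ≤ accProb p C x) ∧ (¬ HasZeroTriangle W x → accProb p C x ≤ θ)

end Pool.Agent.W2helper95.ET
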