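import Pool.Agent.W2helper95.ET.Tri
import Pool.Agent.W2helper95.ET.Defs
import Pool.Agent.W2helper76.RW.Frozen

/-!
# Approximation of the gates by small sets of pairs
-/

set_option autoImplicit false

open Finset

namespace Pool.Agent.W2helper95.ET

open Pool.Agent.W2helper76.RW

variable {V : Type} [DecidableEq V] [Fintype V]

/-- the input given by a triangle -/
def zK (K : Finset V) : Sym2 V → Bool := fun p => decide (p ∈ prs K)

theorem zK_iff (K : Finset V) (p : Sym2 V) : zK K p = true ↔ p ∈ prs K := decide_eq_true_iff

/-- the approximator accepts -/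
def acc : Option (Finset (Sym2 V)) → (Sym2 V → Bool) → Prop
  | none, _ => True
  | some H, z => ∃ p ∈ H, z p = true

/-- the positions of the window -/
def wnd (E : Finset (Sym2 V)) (p : Sym2 V) : Option (Sym2 V) := if p ∈ E then some p else none

/-- the AND gates among the first `n` gates -/
noncomputable def ands {I : Type} (C : Circuit I) (n : ℕ) : Finset (Fin C.s) := by
  classical
  exact univ.filter (fun i => i.val < n ∧ ∃ a b, C.gate i = Gate.and a b)

theorem mem_ands {I : Type} (C : Circuit I) (n : ℕ) (i : Fin C.s) :
    i ∈ ands C n ↔ i.val < n ∧ ∃ a b, C.gate i = Gate.and a b := by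
  classical
  simp [ands]

theorem ands_mono {I : Type} (C : Circuit I) (n : ℕ) : (ands C n).card ≤ (ands C (n + 1)).card := by
  apply Finset.card_le_card
  intro i hi
  rw [mem_ands] at hi ⊢
  exact ⟨by omega, hi.2⟩

theorem ands_succ {I : Type} (C : Circuit I) {n : ℕ} (hn : n < C.s)
    (h : ∃ a b, C.gate ⟨n, hn⟩ = Gate.and a b) : (ands C (n + 1)).card = (ands C n).card + 1 := by
  have h1 : ands C (n + 1) = insert ⟨n, hn⟩ (ands C n) := by
    ext i
    rw [mem_ands, Finset.mem_insert, mem_ands]
    constructor
    · rintro ⟨h1, h2⟩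
      by_cases hi : i.val = n
      · left; exact Fin.ext hi
      · right; exact ⟨by omega, h2⟩
    · rintro (rfl | ⟨h1, h2⟩)
      · exact ⟨by simp, h⟩
      · exact ⟨by omega, h2⟩
  rw [h1, Finset.card_insert_of_notMem]
  rw [mem_ands]
  simp

theorem ands_le {I : Type} (C : Circuit I) (n : ℕ) : (ands C n).card ≤ numAnd C := by
  unfold numAnd
  rw [← Set.ncard_coe_finset]
  apply Set.ncard_le_ncard _ (Set.toFinite _)
  intro i hi
  rw [Finset.mem_coe, mem_ands] at hi
  exact hi.2

section

variable (C : Circuit (Sym2 V)) (E : Finset (Sym2 V)) (u : Sym2 V → Bool) (v0 : Fin C.s → Bool)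
  (T : Finset (Finset V)) (r : ℕ)

/-- the approximator of the gate is good -/
def Gd (L : Finset (Finset V)) (R : Finset (V → Bool)) (i : Fin C.s)
    (A : Option (Finset (Sym2 V))) : Prop :=
  (∀ H, A = some H → H ⊆ E ∧ H.card ≤ 2 * r ^ 2) ∧
  (∀ K ∈ T, K ∉ L → (C.fr (wnd E) u v0 i).eval (zK K) = true → acc A (zK K)) ∧
  ∀ g, g ∉ R → acc A (bic g) → (C.fr (wnd E) u v0 i).eval (bic g) = true

variable {C E u v0 T r}

theorem Gd.mono {L L' : Finset (Finset V)} {R R' : Finset (V → Bool)} {i : Fin C.s}
    {A : Option (Finset (Sym2 V))} (h : Gd C E u v0 T r L R i A) (hL : L ⊆ L') (hR : R ⊆ R') :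
    Gd C E u v0 T r L' R' i A :=
  ⟨h.1, fun K hK hKL => h.2.1 K hK fun h1 => hKL (hL h1), fun g hg => h.2.2 g fun h1 => hg (hR h1)⟩

theorem Gd.const {L : Finset (Finset V)} {R : Finset (V → Bool)} {i : Fin C.s} (c : Bool)
    (hc : C.fr (wnd E) u v0 i = MF.const c) :
    Gd C E u v0 T r L R i (if c = true then none else some ∅) := by
  cases c with
  | true =>
    refine ⟨fun H h => ?_, fun K _ _ _ => ?_, fun g _ _ => ?_⟩
    · simp at h
    · exact trivial
    · rw [hc]; rfl
  | false =>
    refine ⟨fun H h => ?_, fun K _ _ h => ?_, fun g _ h => ?_⟩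
    · simp only [Bool.false_eq_true, if_false, Option.some.injEq] at h
      rw [← h]
      simp
    · rw [hc] at h
      simp [MF.eval] at h
    · simp [acc] at h

/-- **The approximators.** -/
theorem approx (hE : ∀ p ∈ E, ¬ p.IsDiag) (hT : ∀ K ∈ T, K.card = 3) (hr : 1 ≤ r) :
    ∀ n ≤ C.s, ∃ (A : Fin C.s → Option (Finset (Sym2 V))) (L : Finset (Finset V))
      (R : Finset (V → Bool)), L.card ≤ 4 * r ^ 4 * (ands C n).card ∧
      R.card * 2 ^ r ≤ n * 2 ^ Fintype.card V ∧
      ∀ i : Fin C.s, i.val < n → Gd C E u v0 T r L R i (A i) := by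
  intro n
  induction n with
  | zero =>
    intro _
    exact ⟨fun _ => none, ∅, ∅, by simp, by simp, fun i hi => absurd hi (Nat.not_lt_zero _)⟩
  | succ n ih =>
    intro hn
    obtain ⟨A, L, R, hL, hR, hG⟩ := ih (by omega)
    -- the extension
    have ext : ∀ (A' : Option (Finset (Sym2 V))) (L' : Finset (Finset V)) (R' : Finset (V → Bool)),
        L ⊆ L' → R ⊆ R' → L'.card ≤ 4 * r ^ 4 * (ands C (n + 1)).card →
        R'.card * 2 ^ r ≤ (n + 1) * 2 ^ Fintype.card V → Gd C E u v0 T r L' R' ⟨n, hn⟩ A' →
        ∃ (A : Fin C.s → Option (Finset (Sym2 V))) (L : Finset (Finset V))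
          (R : Finset (V → Bool)), L.card ≤ 4 * r ^ 4 * (ands C (n + 1)).card ∧
          R.card * 2 ^ r ≤ (n + 1) * 2 ^ Fintype.card V ∧
          ∀ i : Fin C.s, i.val < n + 1 → Gd C E u v0 T r L R i (A i) := by
      intro A' L' R' h1 h2 h3 h4 h5
      refine ⟨Function.update A ⟨n, hn⟩ A', L', R', h3, h4, fun i hi => ?_⟩
      by_cases hin : i = ⟨n, hn⟩
      · rw [hin, Function.update_self]
        exact h5
      · rw [Function.update_of_ne hin]
        refine (hG i ?_).mono h1 h2
        have : i.val ≠ n := fun h => hin (Fin.ext h)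
        omega
    have hL' : L.card ≤ 4 * r ^ 4 * (ands C (n + 1)).card :=
      hL.trans (Nat.mul_le_mul_left _ (ands_mono C n))
    have hR' : R.card * 2 ^ r ≤ (n + 1) * 2 ^ Fintype.card V :=
      hR.trans (Nat.mul_le_mul_right _ (by omega))
    have hr2 : 1 ≤ r ^ 2 := Nat.one_le_pow _ _ hr
    cases hg : C.gate ⟨n, hn⟩ with
    | inp p =>
      by_cases hp : p ∈ E
      · refine ext (some {p}) L R (Subset.refl _) (Subset.refl _) hL' hR' ⟨?_, ?_, ?_⟩
        · intro H hH
          rw [Option.some.injEq] at hH
          rw [← hH]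
          refine ⟨by simpa using hp, ?_⟩
          rw [Finset.card_singleton]
          omega
        · intro K _ _ h
          rw [C.fr_inp hg, wnd, if_pos hp] at h
          exact ⟨p, by simp, h⟩
        · intro g _ h
          obtain ⟨q, hq, h⟩ := h
          rw [Finset.mem_singleton] at hq
          rw [C.fr_inp hg, wnd, if_pos hp]
          rw [hq] at h
          exact h
      · refine ext _ L R (Subset.refl _) (Subset.refl _) hL' hR' (Gd.const (u p) ?_)
        rw [C.fr_inp hg, wnd, if_neg hp]
    | const c =>
      exact ext _ L R (Subset.refl _) (Subset.refl _) hL' hR' (Gd.const c (C.fr_const hg))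
    | not a =>
      exact ext _ L R (Subset.refl _) (Subset.refl _) hL' hR' (Gd.const (v0 ⟨n, hn⟩)
        (C.fr_not hg))
    | and a b =>
      obtain ⟨ha, hb⟩ := C.and_lt _ a b hg
      have hGa := hG a ha
      have hGb := hG b hb
      have hsucc := ands_succ C hn ⟨a, b, hg⟩
      cases hAa : A a with
      | none =>
        refine ext (A b) L R (Subset.refl _) (Subset.refl _) hL' hR' ⟨hGb.1, ?_, ?_⟩
        · intro K hK hKL h
          rw [C.fr_and hg] at h
          simp only [MF.eval, Bool.and_eq_true] at h
          exact hGb.2.1 K hK hKL h.2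
        · intro g hgR h
          rw [C.fr_and hg]
          simp only [MF.eval, Bool.and_eq_true]
          exact ⟨hGa.2.2 g hgR (by rw [hAa]; trivial), hGb.2.2 g hgR h⟩
      | some H =>
        cases hAb : A b with
        | none =>
          refine ext (A a) L R (Subset.refl _) (Subset.refl _) hL' hR' ⟨hGa.1, ?_, ?_⟩
          · intro K hK hKL h
            rw [C.fr_and hg] at h
            simp only [MF.eval, Bool.and_eq_true] at h
            exact hGa.2.1 K hK hKL h.1
          · intro g hgR h
            rw [C.fr_and hg]
            simp only [MF.eval, Bool.and_eq_true]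
            exact ⟨hGa.2.2 g hgR h, hGb.2.2 g hgR (by rw [hAb]; trivial)⟩
        | some H' =>
          obtain ⟨hHE, hHc⟩ := hGa.1 H hAa
          obtain ⟨hHE', hHc'⟩ := hGb.1 H' hAb
          set Lo := T.filter fun K => ∃ p ∈ H, ∃ q ∈ H', p ≠ q ∧ p ∈ prs K ∧ q ∈ prs K with hLo
          have hLoc : Lo.card ≤ 4 * r ^ 4 := by
            refine (lost_card hT H H').trans ((Nat.mul_le_mul hHc hHc').trans ?_)
            exact le_of_eq (by ring)
          refine ext (some (H ∩ H')) (L ∪ Lo) R Finset.subset_union_left (Subset.refl _) ?_ hR'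
            ⟨?_, ?_, ?_⟩
          · refine (Finset.card_union_le _ _).trans ?_
            rw [hsucc, mul_add, mul_one]
            exact Nat.add_le_add hL hLoc
          · intro H'' hH''
            rw [Option.some.injEq] at hH''
            rw [← hH'']
            exact ⟨Finset.inter_subset_left.trans hHE,
              (Finset.card_le_card Finset.inter_subset_left).trans hHc⟩
          · intro K hK hKL h
            rw [Finset.mem_union, not_or] at hKL
            rw [C.fr_and hg] at h
            simp only [MF.eval, Bool.and_eq_true] at h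
            have h1 := hGa.2.1 K hK hKL.1 h.1
            have h2 := hGb.2.1 K hK hKL.1 h.2
            rw [hAa] at h1
            rw [hAb] at h2
            obtain ⟨p, hp, hpK⟩ := h1
            obtain ⟨q, hq, hqK⟩ := h2
            by_cases hpq : p = q
            · exact ⟨p, Finset.mem_inter.2 ⟨hp, hpq ▸ hq⟩, hpK⟩
            · exact (hKL.2 (Finset.mem_filter.2 ⟨hK, p, hp, q, hq, hpq, (zK_iff K p).1 hpK,
                (zK_iff K q).1 hqK⟩)).elim
          · intro g hgR h
            obtain ⟨p, hp, hpg⟩ := h
            rw [Finset.mem_inter] at hp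
            rw [C.fr_and hg]
            simp only [MF.eval, Bool.and_eq_true]
            exact ⟨hGa.2.2 g hgR (by rw [hAa]; exact ⟨p, hp.1, hpg⟩),
              hGb.2.2 g hgR (by rw [hAb]; exact ⟨p, hp.2, hpg⟩)⟩
    | or a b =>
      obtain ⟨ha, hb⟩ := C.or_lt _ a b hg
      have hGa := hG a ha
      have hGb := hG b hb
      have hnone : ∀ g : V → Bool, g ∉ R → (acc (A a) (bic g) ∨ acc (A b) (bic g)) →
          (C.fr (wnd E) u v0 ⟨n, hn⟩).eval (bic g) = true := by
        intro g hgR h
        rw [C.fr_or hg]
        simp only [MF.eval, Bool.or_eq_true]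
        exact h.imp (hGa.2.2 g hgR) (hGb.2.2 g hgR)
      cases hAa : A a with
      | none =>
        refine ext none L R (Subset.refl _) (Subset.refl _) hL' hR' ⟨?_, fun _ _ _ _ => trivial, ?_⟩
        · intro H hH
          exact absurd hH (by simp)
        · intro g hgR _
          exact hnone g hgR (Or.inl (by rw [hAa]; trivial))
      | some H =>
        cases hAb : A b with
        | none =>
          refine ext none L R (Subset.refl _) (Subset.refl _) hL' hR'
            ⟨?_, fun _ _ _ _ => trivial, ?_⟩
          · intro H hH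
            exact absurd hH (by simp)
          · intro g hgR _
            exact hnone g hgR (Or.inr (by rw [hAb]; trivial))
        | some H' =>
          obtain ⟨hHE, hHc⟩ := hGa.1 H hAa
          obtain ⟨hHE', hHc'⟩ := hGb.1 H' hAb
          by_cases hbig : Big r (H ∪ H')
          · refine ext none L (R ∪ mono (H ∪ H')) (Subset.refl _) Finset.subset_union_left hL' ?_
              ⟨?_, fun _ _ _ _ => trivial, ?_⟩
            · have h1 := card_mono hbig
              have h2 := Finset.card_union_le R (mono (H ∪ H'))
              have h3 := Nat.mul_le_mul_right (2 ^ r) h2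
              rw [add_mul] at h3
              have h4 : (n + 1) * 2 ^ Fintype.card V =
                  n * 2 ^ Fintype.card V + 2 ^ Fintype.card V := by ring
              omega
            · intro H hH
              exact absurd hH (by simp)
            · intro g hgR _
              rw [Finset.mem_union, not_or] at hgR
              apply hnone g hgR.1
              have h1 : ∃ p ∈ H ∪ H', bic g p = true := by
                by_contra hcon
                push Not at hcon
                exact hgR.2 (Finset.mem_filter.2 ⟨mem_univ _, hcon⟩)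
              obtain ⟨p, hp, hpg⟩ := h1
              rcases Finset.mem_union.1 hp with hp | hp
              · exact Or.inl (by rw [hAa]; exact ⟨p, hp, hpg⟩)
              · exact Or.inr (by rw [hAb]; exact ⟨p, hp, hpg⟩)
          · refine ext (some (H ∪ H')) L R (Subset.refl _) (Subset.refl _) hL' hR' ⟨?_, ?_, ?_⟩
            · intro H'' hH''
              rw [Option.some.injEq] at hH''
              rw [← hH'']
              have hsub : H ∪ H' ⊆ E := Finset.union_subset hHE hHE'
              exact ⟨hsub, card_le_of_not_big (fun p hp => hE p (hsub hp)) hbig⟩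
            · intro K hK hKL h
              rw [C.fr_or hg] at h
              simp only [MF.eval, Bool.or_eq_true] at h
              rcases h with h | h
              · have h1 := hGa.2.1 K hK hKL h
                rw [hAa] at h1
                obtain ⟨p, hp, hpK⟩ := h1
                exact ⟨p, Finset.mem_union_left _ hp, hpK⟩
              · have h1 := hGb.2.1 K hK hKL h
                rw [hAb] at h1
                obtain ⟨p, hp, hpK⟩ := h1
                exact ⟨p, Finset.mem_union_right _ hp, hpK⟩
            · intro g hgR h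
              obtain ⟨p, hp, hpg⟩ := h
              apply hnone g hgR
              rcases Finset.mem_union.1 hp with hp | hp
              · exact Or.inl (by rw [hAa]; exact ⟨p, hp, hpg⟩)
              · exact Or.inr (by rw [hAb]; exact ⟨p, hp, hpg⟩)

end

end Pool.Agent.W2helper95.ET
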