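import Pool.Agent.W2helper95.ET.Chain

/-!
# Averaging over the chain of the blocks
-/

set_option autoImplicit false

open Finset

namespace Pool.Agent.W2helper95.ET

open Pool.Agent.W2helper76.RW

variable {V : Type} [DecidableEq V] [Fintype V] {m : ℕ}

theorem accProb_eq {I Ω : Type} [Fintype Ω] (p : Ω → ℝ) (C : Ω → Circuit I) (x : I → Bool) :
    accProb p C x = ∑ ω, p ω * ind ((C ω).eval x = true) := by
  unfold accProb ind
  refine Finset.sum_congr rfl fun ω _ => ?_
  split_ifs <;> rfl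

/-- the inequality for one block and one circuit -/
theorem one_block {E : Fin m → Finset (Sym2 V)} (hdiag : ∀ b, ∀ p ∈ E b, ¬ p.IsDiag)
    (hE : Dis E) {T : Finset (Finset V)} (hT : ∀ K ∈ T, K.card = 3) {r : ℕ} (hr : 1 ≤ r)
    (C : Circuit (Sym2 V)) (b : Fin m) :
    ∑ γ : Fin m → V → Bool, ∑ K ∈ T, ind (C.eval (inw (E b) (wv E b.val γ) (zK K)) = true) ≤
      T.card * ∑ γ : Fin m → V → Bool, (ind (C.eval (wv E (b.val + 1) γ) = true) +
        ind (C.Changed (C.depth C.out) (wv E b.val γ) (wv E (b.val + 1) γ))) +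
      ((C.s + 1) / 2 ^ r * T.card + Lam V r C) * Fintype.card (Fin m → V → Bool) := by
  classical
  set N : ℝ := 2 ^ Fintype.card V with hN
  have hN0 : 0 < N := by rw [hN]; positivity
  have hcard : (Fintype.card (V → Bool) : ℝ) = N := by
    rw [Fintype.card_fun, Fintype.card_bool, hN]
    push_cast
    rfl
  have h1 : ∀ γ : Fin m → V → Bool,
      (∑ K ∈ T, ind (C.eval (inw (E b) (wv E b.val γ) (zK K)) = true)) * N ≤
      T.card * ∑ g : V → Bool, (ind (C.eval (wv E (b.val + 1) (Function.update γ b g)) = true) +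
        ind (C.Changed (C.depth C.out) (wv E b.val (Function.update γ b g))
          (wv E (b.val + 1) (Function.update γ b g)))) +
      ((C.s + 1) / 2 ^ r * T.card + Lam V r C) * N := by
    intro γ
    have h := dich_sum C (hdiag b) (wv E b.val γ) hT hr
    rw [inw_false hE] at h
    have e : ∀ g : V → Bool, (ind (C.eval (inw (E b) (wv E b.val γ) (bic g)) = true) +
        ind (C.Changed (C.depth C.out) (wv E b.val γ) (inw (E b) (wv E b.val γ) (bic g)))) =
        (ind (C.eval (wv E (b.val + 1) (Function.update γ b g)) = true) +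
        ind (C.Changed (C.depth C.out) (wv E b.val (Function.update γ b g))
          (wv E (b.val + 1) (Function.update γ b g)))) := by
      intro g
      rw [inw_bic hE, wv_update E b γ g]
    rw [Finset.sum_congr rfl fun g _ => e g] at h
    exact h
  have h2 := Finset.sum_le_sum fun (γ : Fin m → V → Bool) (_ : γ ∈ univ) => h1 γ
  rw [← Finset.sum_mul, Finset.sum_add_distrib, ← Finset.mul_sum, Finset.sum_const,
    Finset.card_univ, nsmul_eq_mul] at h2
  rw [resamp b (fun γ => ind (C.eval (wv E (b.val + 1) γ) = true) +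
        ind (C.Changed (C.depth C.out) (wv E b.val γ) (wv E (b.val + 1) γ))), hcard] at h2
  have h3 : (∑ γ : Fin m → V → Bool, ∑ K ∈ T,
      ind (C.eval (inw (E b) (wv E b.val γ) (zK K)) = true)) * N ≤
      (T.card * ∑ γ : Fin m → V → Bool, (ind (C.eval (wv E (b.val + 1) γ) = true) +
        ind (C.Changed (C.depth C.out) (wv E b.val γ) (wv E (b.val + 1) γ))) +
      ((C.s + 1) / 2 ^ r * T.card + Lam V r C) * Fintype.card (Fin m → V → Bool)) * N := by
    calc _ ≤ _ := h2
      _ = _ := by ring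
  exact le_of_mul_le_mul_right h3 hN0

/-- **The main inequality.** -/
theorem main_sum {E : Fin m → Finset (Sym2 V)} (hdiag : ∀ b, ∀ p ∈ E b, ¬ p.IsDiag)
    (hE : Dis E) {Z : Finset (Finset V)} (hZ : ∀ K ∈ Z, K.card = 3)
    (hcl : ∀ K ∈ Z, (∀ p ∈ prs K, ∃ b, p ∈ E b) → ∃ b, prs K ⊆ E b)
    {Ω : Type} [Fintype Ω] {p : Ω → ℝ} (hp : ∀ ω, 0 ≤ p ω) (hp1 : ∑ ω, p ω = 1)
    {C : Ω → Circuit (Sym2 V)} {t A s : ℕ} (ht : ∀ ω, (C ω).numNot ≤ t)
    (hA : ∀ ω, numAnd (C ω) ≤ A) (hs : ∀ ω, (C ω).s ≤ s) {θ δ : ℝ}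
    (hyes : ∀ x, Has Z x → θ + δ ≤ accProb p C x)
    (hno : ∀ x, ¬ Has Z x → accProb p C x ≤ θ)
    {r : ℕ} (hr : 1 ≤ r) (h1 : 4 * ((s : ℝ) + 1) ≤ δ * 2 ^ r) {τ : ℝ} (hτ0 : 0 ≤ τ)
    (h2 : ∀ b, ((Z.filter fun K => prs K ⊆ E b).card : ℝ) ≤ τ) :
    3 / 4 * δ * ∑ b, ((Z.filter fun K => prs K ⊆ E b).card : ℝ) ≤
      τ * (2 ^ t - 1) + m * (4 * (r : ℝ) ^ 4 * A + 2 * (r : ℝ) ^ 2 * Fintype.card V) := by
  classical
  set M : ℝ := ((Fintype.card (Fin m → V → Bool) : ℕ) : ℝ) with hM
  have hM0 : 0 < M := by rw [hM]; exact_mod_cast Fintype.card_pos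
  set X : Fin m → ℝ := fun b => ∑ ω, p ω * ∑ γ : Fin m → V → Bool,
    ind ((C ω).Changed ((C ω).depth (C ω).out) (wv E b.val γ) (wv E (b.val + 1) γ)) with hX
  set lam : ℝ := 4 * (r : ℝ) ^ 4 * A + 2 * (r : ℝ) ^ 2 * Fintype.card V with hlam
  have hX0 : ∀ b, 0 ≤ X b := fun b => Finset.sum_nonneg fun ω _ =>
    mul_nonneg (hp ω) (Finset.sum_nonneg fun γ _ => ind_nonneg _)
  -- the changes
  have hXs : ∑ b, X b ≤ (2 ^ t - 1) * M := by
    calc ∑ b, X b = ∑ ω, p ω * ∑ γ : Fin m → V → Bool, ∑ b : Fin m,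
          ind ((C ω).Changed ((C ω).depth (C ω).out) (wv E b.val γ) (wv E (b.val + 1) γ)) := by
          rw [hX]
          simp only
          rw [Finset.sum_comm]
          refine Finset.sum_congr rfl fun ω _ => ?_
          rw [← Finset.mul_sum, Finset.sum_comm]
      _ ≤ ∑ ω, p ω * ∑ γ : Fin m → V → Bool, ((2 : ℝ) ^ t - 1) :=
          Finset.sum_le_sum fun ω _ => mul_le_mul_of_nonneg_left
            (Finset.sum_le_sum fun γ _ => changes E (C ω) _ (ht ω) γ) (hp ω)
      _ = (2 ^ t - 1) * M := by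
          rw [Finset.sum_const, Finset.card_univ, nsmul_eq_mul, ← Finset.sum_mul, hp1, one_mul,
            mul_comm]
  have hlω : ∀ ω, (Lam V r (C ω) : ℝ) ≤ lam := by
    intro ω
    unfold Lam
    push_cast
    rw [hlam]
    have : (numAnd (C ω) : ℝ) ≤ A := by exact_mod_cast hA ω
    have h4 : (0 : ℝ) ≤ 4 * (r : ℝ) ^ 4 := by positivity
    have := mul_le_mul_of_nonneg_left this h4
    linarith
  have hεω : ∀ ω, (((C ω).s : ℝ) + 1) / 2 ^ r ≤ δ / 4 := by
    intro ω
    have h4 : ((C ω).s : ℝ) ≤ s := by exact_mod_cast hs ω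
    have h5 : (0 : ℝ) < 2 ^ r := by positivity
    rw [div_le_iff₀ h5]
    linarith
  -- the inequality for one block
  have hXb : ∀ b, 3 / 4 * δ * ((Z.filter fun K => prs K ⊆ E b).card : ℝ) * M ≤ τ * X b + lam * M := by
    intro b
    set T := Z.filter fun K => prs K ⊆ E b with hT
    have hT3 : ∀ K ∈ T, K.card = 3 := fun K hK => hZ K (Finset.mem_filter.1 hK).1
    have hτ : (0 : ℝ) ≤ T.card := Nat.cast_nonneg _
    have hY : T.card * (M * (θ + δ)) ≤ ∑ ω, p ω * ∑ γ : Fin m → V → Bool, ∑ K ∈ T,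
        ind ((C ω).eval (inw (E b) (wv E b.val γ) (zK K)) = true) := by
      calc T.card * (M * (θ + δ)) = ∑ γ : Fin m → V → Bool, ∑ K ∈ T, (θ + δ) := by
            rw [Finset.sum_const, Finset.sum_const, Finset.card_univ, nsmul_eq_mul, nsmul_eq_mul,
              ← hM]
            ring
        _ ≤ ∑ γ : Fin m → V → Bool, ∑ K ∈ T,
              accProb p C (inw (E b) (wv E b.val γ) (zK K)) :=
            Finset.sum_le_sum fun γ _ => Finset.sum_le_sum fun K hK =>
              hyes _ (has_inw (Finset.mem_filter.1 hK).1 (Finset.mem_filter.1 hK).2)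
        _ = _ := by
            simp only [accProb_eq, Finset.mul_sum]
            rw [Finset.sum_comm]
            rw [Finset.sum_congr rfl fun K _ => Finset.sum_comm]
            rw [Finset.sum_comm]
            refine Finset.sum_congr rfl fun ω _ => ?_
            rw [Finset.sum_comm]
    have hN : ∑ ω, p ω * ∑ γ : Fin m → V → Bool, ind ((C ω).eval (wv E (b.val + 1) γ) = true) ≤
        M * θ := by
      calc _ = ∑ γ : Fin m → V → Bool, accProb p C (wv E (b.val + 1) γ) := by
            simp only [accProb_eq, Finset.mul_sum]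
            rw [Finset.sum_comm]
        _ ≤ ∑ γ : Fin m → V → Bool, θ :=
            Finset.sum_le_sum fun γ _ => hno _ (not_has_wv hZ hE hcl _ _)
        _ = M * θ := by rw [Finset.sum_const, Finset.card_univ, nsmul_eq_mul]
    have hω : ∀ ω, p ω * ∑ γ : Fin m → V → Bool, ∑ K ∈ T,
        ind ((C ω).eval (inw (E b) (wv E b.val γ) (zK K)) = true) ≤
        p ω * (T.card * ∑ γ : Fin m → V → Bool, ind ((C ω).eval (wv E (b.val + 1) γ) = true) +
          T.card * ∑ γ : Fin m → V → Bool, ind ((C ω).Changed ((C ω).depth (C ω).out)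
            (wv E b.val γ) (wv E (b.val + 1) γ)) + (δ / 4 * T.card + lam) * M) := by
      intro ω
      apply mul_le_mul_of_nonneg_left _ (hp ω)
      refine (one_block hdiag hE hT3 hr (C ω) b).trans ?_
      rw [Finset.sum_add_distrib, mul_add]
      apply add_le_add le_rfl
      apply mul_le_mul_of_nonneg_right _ hM0.le
      exact add_le_add (mul_le_mul_of_nonneg_right (hεω ω) hτ) (hlω ω)
    have hsum := Finset.sum_le_sum fun (ω : Ω) (_ : ω ∈ univ) => hω ω
    have e1 : ∑ ω, p ω * (T.card * ∑ γ : Fin m → V → Bool,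
          ind ((C ω).eval (wv E (b.val + 1) γ) = true) +
          T.card * ∑ γ : Fin m → V → Bool, ind ((C ω).Changed ((C ω).depth (C ω).out)
            (wv E b.val γ) (wv E (b.val + 1) γ)) + (δ / 4 * T.card + lam) * M) =
        T.card * (∑ ω, p ω * ∑ γ : Fin m → V → Bool,
          ind ((C ω).eval (wv E (b.val + 1) γ) = true)) + T.card * X b +
        (δ / 4 * T.card + lam) * M := by
      have e2 : ∑ ω, p ω * ((δ / 4 * T.card + lam) * M) = (δ / 4 * T.card + lam) * M := by
        rw [← Finset.sum_mul, hp1, one_mul]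
      rw [hX]
      simp only
      rw [← e2, Finset.mul_sum, Finset.mul_sum, ← Finset.sum_add_distrib,
        ← Finset.sum_add_distrib]
      refine Finset.sum_congr rfl fun ω _ => ?_
      rw [e2]
      ring
    rw [e1] at hsum
    have h5 : T.card * (∑ ω, p ω * ∑ γ : Fin m → V → Bool,
          ind ((C ω).eval (wv E (b.val + 1) γ) = true)) ≤ T.card * (M * θ) :=
      mul_le_mul_of_nonneg_left hN hτ
    have h6 : (T.card : ℝ) * X b ≤ τ * X b := mul_le_mul_of_nonneg_right (h2 b) (hX0 b)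
    linarith
  have hsumb := Finset.sum_le_sum fun (b : Fin m) (_ : b ∈ univ) => hXb b
  rw [← Finset.sum_mul, ← Finset.mul_sum, Finset.sum_add_distrib, ← Finset.mul_sum,
    Finset.sum_const, Finset.card_univ, Fintype.card_fin, nsmul_eq_mul] at hsumb
  have h7 : τ * ∑ b, X b ≤ τ * ((2 ^ t - 1) * M) := mul_le_mul_of_nonneg_left hXs hτ0
  have h8 : (3 / 4 * δ * ∑ b, ((Z.filter fun K => prs K ⊆ E b).card : ℝ)) * M ≤
      (τ * (2 ^ t - 1) + m * lam) * M := by linarith
  exact le_of_mul_le_mul_right h8 hM0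

end Pool.Agent.W2helper95.ET
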