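import Mathlib

/-!
# Sets of pairs: few pairs, or most colourings have a pair with two colours
-/

set_option autoImplicit false

open Finset

namespace Pool.Agent.W2helper95.ET

variable {V : Type} [DecidableEq V] [Fintype V]

/-- the pair has two colours -/
def bic (g : V → Bool) (p : Sym2 V) : Bool := decide (∃ a b : V, p = s(a, b) ∧ g a ≠ g b)

theorem bic_mk (g : V → Bool) (a b : V) : bic g s(a, b) = true ↔ g a ≠ g b := by
  unfold bic
  rw [decide_eq_true_iff]
  constructor
  · rintro ⟨c, d, h, hcd⟩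
    rcases Sym2.eq_iff.1 h with ⟨rfl, rfl⟩ | ⟨rfl, rfl⟩
    · exact hcd
    · exact fun h => hcd h.symm
  · intro h
    exact ⟨a, b, rfl, h⟩

/-- There are `r` vertices each of which is joined to a vertex outside. -/
def Big (r : ℕ) (H : Finset (Sym2 V)) : Prop :=
  ∃ N : Finset V, N.card = r ∧ ∀ u ∈ N, ∃ v, v ∉ N ∧ s(u, v) ∈ H

/-- the colourings for which all pairs have one colour -/
def mono (H : Finset (Sym2 V)) : Finset (V → Bool) :=
  univ.filter fun g => ∀ p ∈ H, bic g p ≠ true

theorem card_mono {r : ℕ} {H : Finset (Sym2 V)} (h : Big r H) :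
    (mono H).card * 2 ^ r ≤ 2 ^ Fintype.card V := by
  obtain ⟨N, hN, hv⟩ := h
  have h1 : (mono H).card ≤ Fintype.card ({v // v ∉ N} → Bool) := by
    rw [← Finset.card_univ]
    apply Finset.card_le_card_of_injOn (fun g v => g v.1) (fun _ _ => mem_univ _)
    intro g hg g' hg' hgg
    have hg1 := (Finset.mem_filter.1 hg).2
    have hg2 := (Finset.mem_filter.1 hg').2
    have hout : ∀ v, v ∉ N → g v = g' v := fun v hv => congrFun hgg ⟨v, hv⟩
    funext u
    by_cases hu : u ∈ N
    · obtain ⟨v, hvN, hvH⟩ := hv u hu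
      have e1 : g u = g v := by
        by_contra hne
        exact hg1 _ hvH ((bic_mk g u v).2 hne)
      have e2 : g' u = g' v := by
        by_contra hne
        exact hg2 _ hvH ((bic_mk g' u v).2 hne)
      rw [e1, e2, hout v hvN]
    · exact hout u hu
  have h2 : Fintype.card ({v // v ∉ N} → Bool) * 2 ^ r = 2 ^ Fintype.card V := by
    rw [Fintype.card_fun, Fintype.card_bool, ← pow_add]
    congr 1
    have h3 : Fintype.card {v // v ∉ N} = Fintype.card V - N.card := by
      rw [Fintype.card_subtype_compl, Fintype.card_coe]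
    have h4 : N.card ≤ Fintype.card V := Finset.card_le_univ N
    omega
  calc (mono H).card * 2 ^ r ≤ Fintype.card ({v // v ∉ N} → Bool) * 2 ^ r :=
        Nat.mul_le_mul_right _ h1
    _ = _ := h2

omit [DecidableEq V] [Fintype V] in
theorem big_of_le {r : ℕ} {H : Finset (Sym2 V)} {N : Finset V} (hN : r ≤ N.card)
    (h : ∀ u ∈ N, ∃ v, v ∉ N ∧ s(u, v) ∈ H) : Big r H := by
  obtain ⟨N', hN', hc⟩ := Finset.exists_subset_card_eq hN
  refine ⟨N', hc, fun u hu => ?_⟩
  obtain ⟨v, hv, hH⟩ := h u (hN' hu)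
  exact ⟨v, fun h => hv (hN' h), hH⟩

/-- a set of pairs without many disjoint pairs and without large stars is small -/
theorem card_le_of_not_big {r : ℕ} {H : Finset (Sym2 V)} (hd : ∀ p ∈ H, ¬ p.IsDiag)
    (h : ¬ Big r H) : H.card ≤ 2 * r ^ 2 := by
  classical
  -- the stars are small
  have hstar : ∀ v : V, (H.filter fun p => v ∈ p).card ≤ r := by
    intro v
    by_contra hcon
    push Not at hcon
    apply h
    set N : Finset V := univ.filter fun u => s(u, v) ∈ H with hN
    apply big_of_le (N := N)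
    · have h1 : (H.filter fun p => v ∈ p) ⊆ N.image (fun u => s(u, v)) := by
        intro p hp
        obtain ⟨hp1, hp2⟩ := Finset.mem_filter.1 hp
        obtain ⟨u, rfl⟩ := Sym2.mem_iff_exists.1 hp2
        rw [Sym2.eq_swap] at hp1 ⊢
        exact Finset.mem_image.2 ⟨u, Finset.mem_filter.2 ⟨mem_univ _, hp1⟩, rfl⟩
      have h2 := (Finset.card_le_card h1).trans Finset.card_image_le
      omega
    · intro u hu
      have hu' := (Finset.mem_filter.1 hu).2
      refine ⟨v, fun hvN => ?_, hu'⟩
      have := (Finset.mem_filter.1 hvN).2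
      exact hd _ this (by simp)
  -- a maximal set of disjoint pairs
  set F : Finset (Finset (Sym2 V)) :=
    H.powerset.filter (fun M => ∀ p ∈ M, ∀ q ∈ M, ∀ v, v ∈ p → v ∈ q → p = q) with hF
  have hFne : F.Nonempty := ⟨∅, Finset.mem_filter.2 ⟨Finset.empty_mem_powerset _, by simp⟩⟩
  obtain ⟨M, hMF, hmax⟩ := Finset.exists_max_image F Finset.card hFne
  obtain ⟨hMH, hMd⟩ := Finset.mem_filter.1 hMF
  rw [Finset.mem_powerset] at hMH
  -- it is small
  have hMc : M.card ≤ r := by
    by_contra hcon
    push Not at hcon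
    apply h
    set N : Finset V := M.image (fun p => p.out.1) with hN
    have hmem1 : ∀ p : Sym2 V, p.out.1 ∈ p := fun p => Sym2.out_fst_mem p
    have hmem2 : ∀ p : Sym2 V, p.out.2 ∈ p := fun p => Sym2.out_snd_mem p
    have hpq : ∀ p : Sym2 V, s(p.out.1, p.out.2) = p := fun p => by
      exact Quot.out_eq p
    have hinj : Set.InjOn (fun p : Sym2 V => p.out.1) (M : Set (Sym2 V)) := by
      intro p hp q hq hpq'
      have hpq'' : p.out.1 = q.out.1 := hpq'
      exact hMd p hp q hq p.out.1 (hmem1 p) (by rw [hpq'']; exact hmem1 q)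
    apply big_of_le (N := N)
    · rw [hN, Finset.card_image_of_injOn hinj]
      exact hcon.le
    · intro u hu
      obtain ⟨p, hp, rfl⟩ := Finset.mem_image.1 hu
      refine ⟨p.out.2, fun hvN => ?_, ?_⟩
      · obtain ⟨q, hq, hq2⟩ := Finset.mem_image.1 hvN
        have e : p = q := hMd p hp q hq p.out.2 (hmem2 p) (by rw [← hq2]; exact hmem1 q)
        rw [← e] at hq2
        apply hd p (hMH hp)
        rw [← hpq p, hq2]
        simp
      · rw [hpq p]
        exact hMH hp
  -- all pairs meet it
  have hcov : H ⊆ (M.biUnion fun p => (H.filter fun q => p.out.1 ∈ q) ∪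
      (H.filter fun q => p.out.2 ∈ q)) := by
    intro q hq
    by_contra hcon
    have hq0 : ∀ p ∈ M, p.out.1 ∉ q ∧ p.out.2 ∉ q := by
      intro p hp
      constructor
      · intro h1
        exact hcon (Finset.mem_biUnion.2 ⟨p, hp, Finset.mem_union_left _
          (Finset.mem_filter.2 ⟨hq, h1⟩)⟩)
      · intro h1
        exact hcon (Finset.mem_biUnion.2 ⟨p, hp, Finset.mem_union_right _
          (Finset.mem_filter.2 ⟨hq, h1⟩)⟩)
    have hqM : q ∉ M := fun h1 => (hq0 q h1).1 (Sym2.out_fst_mem q)
    have hdis : ∀ p ∈ M, ∀ v, v ∈ p → v ∉ q := by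
      intro p hp v hv
      have e : s(p.out.1, p.out.2) = p := Quot.out_eq p
      rw [← e, Sym2.mem_iff] at hv
      rcases hv with rfl | rfl
      · exact (hq0 p hp).1
      · exact (hq0 p hp).2
    have hins : insert q M ∈ F := by
      refine Finset.mem_filter.2 ⟨Finset.mem_powerset.2 (Finset.insert_subset hq hMH), ?_⟩
      intro p hp p' hp' v hv hv'
      rcases Finset.mem_insert.1 hp with e | hp
      · rcases Finset.mem_insert.1 hp' with e' | hp'
        · rw [e, e']
        · exact (hdis p' hp' v hv' (e ▸ hv)).elim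
      · rcases Finset.mem_insert.1 hp' with e' | hp'
        · exact (hdis p hp v hv (e' ▸ hv')).elim
        · exact hMd p hp p' hp' v hv hv'
    have := hmax _ hins
    rw [Finset.card_insert_of_notMem hqM] at this
    omega
  calc H.card ≤ _ := Finset.card_le_card hcov
    _ ≤ ∑ p ∈ M, ((H.filter fun q => p.out.1 ∈ q) ∪ (H.filter fun q => p.out.2 ∈ q)).card :=
        Finset.card_biUnion_le
    _ ≤ ∑ p ∈ M, (r + r) := Finset.sum_le_sum fun p _ =>
        (Finset.card_union_le _ _).trans (Nat.add_le_add (hstar _) (hstar _))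
    _ = M.card * (r + r) := by rw [Finset.sum_const, smul_eq_mul]
    _ ≤ r * (r + r) := Nat.mul_le_mul_right _ hMc
    _ = 2 * r ^ 2 := by ring

end Pool.Agent.W2helper95.ET
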