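import Pool.Agent.W2helper95.ET.Win

/-!
# The chain of the blocks
-/

set_option autoImplicit false

open Finset

namespace Pool.Agent.W2helper95.ET

open Pool.Agent.W2helper76.RW

/-- The trick of resampling one coordinate. -/
theorem resamp {m : ℕ} {G : Type} [Fintype G] (b : Fin m) (h : (Fin m → G) → ℝ) :
    ∑ γ : Fin m → G, ∑ g : G, h (Function.update γ b g) = Fintype.card G * ∑ γ, h γ := by
  classical
  rw [← Fintype.sum_prod_type (f := fun x : (Fin m → G) × G => h (Function.update x.1 b x.2))]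
  have e : ∑ x : (Fin m → G) × G, h (Function.update x.1 b x.2) = ∑ x : (Fin m → G) × G, h x.1 := by
    refine Finset.sum_bij' (fun x _ => (Function.update x.1 b x.2, x.1 b))
      (fun x _ => (Function.update x.1 b x.2, x.1 b)) ?_ ?_ ?_ ?_ ?_
    · intro x _; exact mem_univ _
    · intro x _; exact mem_univ _
    · intro x _; simp
    · intro x _; simp
    · intro x _; rfl
  have e2 : ∑ x : (Fin m → G) × G, h x.1 = Fintype.card G * ∑ γ, h γ := by
    rw [Fintype.sum_prod_type, Finset.mul_sum]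
    apply Finset.sum_congr rfl
    intro γ _
    simp
  rw [← e2, ← e]

variable {V : Type} [DecidableEq V] [Fintype V] {m : ℕ}

/-- the input before the block `b` is used -/
def wv (E : Fin m → Finset (Sym2 V)) (b : ℕ) (γ : Fin m → V → Bool) : Sym2 V → Bool := fun p =>
  decide (∃ b' : Fin m, b'.val < b ∧ p ∈ E b' ∧ bic (γ b') p = true)

theorem wv_iff (E : Fin m → Finset (Sym2 V)) (b : ℕ) (γ : Fin m → V → Bool) (p : Sym2 V) :
    wv E b γ p = true ↔ ∃ b' : Fin m, b'.val < b ∧ p ∈ E b' ∧ bic (γ b') p = true :=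
  decide_eq_true_iff

theorem wv_mono (E : Fin m → Finset (Sym2 V)) (b : ℕ) (γ : Fin m → V → Bool) (p : Sym2 V) :
    wv E b γ p = true → wv E (b + 1) γ p = true := by
  rw [wv_iff, wv_iff]
  rintro ⟨b', h1, h2⟩
  exact ⟨b', by omega, h2⟩

theorem wv_update (E : Fin m → Finset (Sym2 V)) (b : Fin m) (γ : Fin m → V → Bool)
    (g : V → Bool) : wv E b.val (Function.update γ b g) = wv E b.val γ := by
  funext p
  rw [Bool.eq_iff_iff, wv_iff, wv_iff]
  constructor
  · rintro ⟨b', h1, h2, h3⟩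
    have hb : b' ≠ b := by rintro rfl; exact absurd h1 (lt_irrefl _)
    rw [Function.update_of_ne hb] at h3
    exact ⟨b', h1, h2, h3⟩
  · rintro ⟨b', h1, h2, h3⟩
    have hb : b' ≠ b := by rintro rfl; exact absurd h1 (lt_irrefl _)
    refine ⟨b', h1, h2, ?_⟩
    rw [Function.update_of_ne hb]
    exact h3

/-- the blocks are disjoint -/
def Dis (E : Fin m → Finset (Sym2 V)) : Prop := ∀ b b' p, p ∈ E b → p ∈ E b' → b = b'

theorem inw_false {E : Fin m → Finset (Sym2 V)} (hE : Dis E) (b : Fin m)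
    (γ : Fin m → V → Bool) :
    inw (E b) (wv E b.val γ) (fun _ => false) = wv E b.val γ := by
  funext p
  by_cases hp : p ∈ E b
  · rw [inw_mem hp]
    by_contra hne
    have h1 : wv E b.val γ p = true := by
      cases h : wv E b.val γ p with
      | true => rfl
      | false => exact absurd h.symm hne
    obtain ⟨b', h1, h2, -⟩ := (wv_iff E b.val γ p).1 h1
    have := hE b b' p hp h2
    subst this
    exact absurd h1 (lt_irrefl _)
  · rw [inw_not_mem hp]

theorem inw_bic {E : Fin m → Finset (Sym2 V)} (hE : Dis E) (b : Fin m)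
    (γ : Fin m → V → Bool) (g : V → Bool) :
    inw (E b) (wv E b.val γ) (bic g) = wv E (b.val + 1) (Function.update γ b g) := by
  funext p
  by_cases hp : p ∈ E b
  · rw [inw_mem hp, Bool.eq_iff_iff, wv_iff]
    constructor
    · intro h
      refine ⟨b, by omega, hp, ?_⟩
      rw [Function.update_self]
      exact h
    · rintro ⟨b', -, h2, h3⟩
      have := hE b b' p hp h2
      subst this
      rw [Function.update_self] at h3
      exact h3
  · rw [inw_not_mem hp, Bool.eq_iff_iff, wv_iff, wv_iff]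
    constructor
    · rintro ⟨b', h1, h2, h3⟩
      have hb : b' ≠ b := by rintro rfl; exact absurd h1 (lt_irrefl _)
      refine ⟨b', by omega, h2, ?_⟩
      rw [Function.update_of_ne hb]
      exact h3
    · rintro ⟨b', h1, h2, h3⟩
      have hb : b' ≠ b := by rintro rfl; exact hp h2
      rw [Function.update_of_ne hb] at h3
      refine ⟨b', ?_, h2, h3⟩
      have : b'.val ≠ b.val := fun h => hb (Fin.ext h)
      omega

/-- few changes of the NOT gates along the chain -/
theorem changes (E : Fin m → Finset (Sym2 V)) (C : Circuit (Sym2 V)) (D0 : ℕ) {t : ℕ}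
    (ht : C.numNot ≤ t) (γ : Fin m → V → Bool) :
    ∑ b : Fin m, ind (C.Changed D0 (wv E b.val γ) (wv E (b.val + 1) γ)) ≤ 2 ^ t - 1 := by
  classical
  have step : ∀ b : ℕ, C.wt D0 (wv E b γ) +
      (if C.Changed D0 (wv E b γ) (wv E (b + 1) γ) then 1 else 0) ≤
      C.wt D0 (wv E (b + 1) γ) := by
    intro b
    exact C.wt_step (wv_mono E b γ)
  have tel : ∀ k : ℕ, C.wt D0 (wv E 0 γ) + ∑ b ∈ Finset.range k,
      (if C.Changed D0 (wv E b γ) (wv E (b + 1) γ) then 1 else 0) ≤ C.wt D0 (wv E k γ) := by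
    intro k
    induction k with
    | zero => simp
    | succ k ih =>
      rw [Finset.sum_range_succ]
      have := step k
      omega
  have h1 := tel m
  have h2 := C.wt_lt D0 (wv E m γ)
  have h3 : (2 : ℕ) ^ (C.nots D0).card ≤ 2 ^ t :=
    Nat.pow_le_pow_right (by norm_num) ((C.card_nots D0).trans ht)
  have h4 : ∑ b ∈ Finset.range m,
      (if C.Changed D0 (wv E b γ) (wv E (b + 1) γ) then 1 else 0) + 1 ≤ 2 ^ t := by
    omega
  rw [Finset.sum_range] at h4
  have h5 : ((∑ b : Fin m, (if C.Changed D0 (wv E b.val γ) (wv E (b.val + 1) γ) then 1 else 0) +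
      1 : ℕ) : ℝ) ≤ ((2 ^ t : ℕ) : ℝ) := by exact_mod_cast h4
  push_cast at h5
  unfold ind
  linarith

/-- The input contains a triangle of `Z`. -/
def Has (Z : Finset (Finset V)) (x : Sym2 V → Bool) : Prop :=
  ∃ K ∈ Z, ∀ p ∈ prs K, x p = true

theorem has_inw {Z : Finset (Finset V)} {E : Finset (Sym2 V)} {u : Sym2 V → Bool} {K : Finset V}
    (hK : K ∈ Z) (h : prs K ⊆ E) : Has Z (inw E u (zK K)) := by
  refine ⟨K, hK, fun p hp => ?_⟩
  rw [inw_mem (h hp)]
  exact (zK_iff K p).2 hp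

theorem not_has_wv {Z : Finset (Finset V)} (hZ : ∀ K ∈ Z, K.card = 3)
    {E : Fin m → Finset (Sym2 V)} (hE : Dis E)
    (hcl : ∀ K ∈ Z, (∀ p ∈ prs K, ∃ b, p ∈ E b) → ∃ b, prs K ⊆ E b) (b : ℕ)
    (γ : Fin m → V → Bool) : ¬ Has Z (wv E b γ) := by
  rintro ⟨K, hK, h⟩
  obtain ⟨b0, hb0⟩ := hcl K hK fun p hp => by
    obtain ⟨b', -, h2, -⟩ := (wv_iff E b γ p).1 (h p hp)
    exact ⟨b', h2⟩
  apply not_bic_tri (γ b0) (hZ K hK)
  intro p hp
  obtain ⟨b', -, h2, h3⟩ := (wv_iff E b γ p).1 (h p hp)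
  have := hE b0 b' p (hb0 hp) h2
  subst this
  exact h3

end Pool.Agent.W2helper95.ET
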