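import Pool.Agent.W2helper95.ET.Wt

/-!
# The inequality for systems of blocks
-/

set_option autoImplicit false

open Finset

namespace Pool.Agent.W2helper95.ET

open Pool.Agent.W2helper76.RW

theorem rchoice {δ : ℝ} (hδ : 0 < δ) : ∃ d : ℕ, ∀ s : ℕ,
    4 * ((s : ℝ) + 1) ≤ δ * 2 ^ (d + Nat.log 2 (s + 2) + 1) := by
  obtain ⟨d, hd⟩ := pow_unbounded_of_one_lt (4 / δ) (one_lt_two : (1 : ℝ) < 2)
  refine ⟨d, fun s => ?_⟩
  have h1 : s + 2 < 2 ^ (Nat.log 2 (s + 2) + 1) := Nat.lt_pow_succ_log_self (by norm_num) _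
  have h2 : (s : ℝ) + 2 < 2 ^ (Nat.log 2 (s + 2) + 1) := by exact_mod_cast h1
  have h3 : 4 < 2 ^ d * δ := (div_lt_iff₀ hδ).1 hd
  have h4 : (0 : ℝ) < 2 ^ (Nat.log 2 (s + 2) + 1) := by positivity
  calc 4 * ((s : ℝ) + 1) ≤ 4 * 2 ^ (Nat.log 2 (s + 2) + 1) := by linarith
    _ ≤ (2 ^ d * δ) * 2 ^ (Nat.log 2 (s + 2) + 1) := mul_le_mul_of_nonneg_right h3.le h4.le
    _ = δ * 2 ^ (d + Nat.log 2 (s + 2) + 1) := by
        rw [show d + Nat.log 2 (s + 2) + 1 = d + (Nat.log 2 (s + 2) + 1) by ring, pow_add]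
        ring

/-- The inequality for disjoint sets of pairs. -/
theorem core {δ : ℝ} (hδ : 0 < δ) : ∃ c : ℝ, 0 < c ∧ ∀ (V : Type) [DecidableEq V] [Fintype V]
    (W : Sym2 V → ℤ) (m : ℕ) (E : Fin m → Finset (Sym2 V)), (∀ b, ∀ p ∈ E b, ¬ p.IsDiag) →
    Dis E → (∀ K ∈ ZW W, (∀ p ∈ prs K, ∃ b, p ∈ E b) → ∃ b, prs K ⊆ E b) →
    ∀ (Ω : Type) [Fintype Ω] (p : Ω → ℝ) (C : Ω → Circuit (Sym2 V)) (t A s : ℕ),
    Decides δ W p C → (∀ ω, (C ω).numNot ≤ t) → (∀ ω, numAnd (C ω) ≤ A) → (∀ ω, (C ω).s ≤ s) →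
    ∀ τ : ℝ, 0 ≤ τ → (∀ b, (((ZW W).filter fun K => prs K ⊆ E b).card : ℝ) ≤ τ) →
    3 / 4 * δ * ∑ b, (((ZW W).filter fun K => prs K ⊆ E b).card : ℝ) ≤
      τ * (2 ^ t - 1) + m * (c * (A + Fintype.card V) * (Nat.log 2 (s + 2) : ℝ) ^ 4) := by
  obtain ⟨d, hd⟩ := rchoice hδ
  refine ⟨4 * ((d : ℝ) + 2) ^ 4, by positivity, ?_⟩
  intro V _ _ W m E hdiag hE hcl Ω _ p C t A s hdec ht hA hs τ hτ hT
  obtain ⟨hp, hp1, θ, hθ⟩ := hdec
  set L := Nat.log 2 (s + 2) with hL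
  have hL1 : 1 ≤ L := by
    rw [hL]
    exact Nat.log_pos (by norm_num) (by omega)
  have hL1' : (1 : ℝ) ≤ L := by exact_mod_cast hL1
  have h := main_sum (r := d + L + 1) hdiag hE (fun K hK => (Finset.mem_filter.1 hK).2.1) hcl hp
    hp1 ht hA hs (fun x hx => (hθ x).1 ((has_iff W x).1 hx))
    (fun x hx => (hθ x).2 fun h => hx ((has_iff W x).2 h)) (by omega) (hd s) hτ hT
  refine h.trans ?_
  apply add_le_add le_rfl
  apply mul_le_mul_of_nonneg_left _ (Nat.cast_nonneg _)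
  have hd0 : (0 : ℝ) ≤ d := Nat.cast_nonneg _
  have hr1 : (1 : ℝ) ≤ ((d + L + 1 : ℕ) : ℝ) := by exact_mod_cast (by omega : 1 ≤ d + L + 1)
  have hr2 : ((d + L + 1 : ℕ) : ℝ) ≤ (d + 2) * L := by
    push_cast
    nlinarith
  set r : ℝ := ((d + L + 1 : ℕ) : ℝ) with hr
  have hA0 : (0 : ℝ) ≤ A := Nat.cast_nonneg _
  have hV0 : (0 : ℝ) ≤ Fintype.card V := Nat.cast_nonneg _
  have h2 : r ^ 2 ≤ r ^ 4 := pow_le_pow_right₀ hr1 (by norm_num)
  have h4 : r ^ 4 ≤ ((d + 2) * L) ^ 4 := pow_le_pow_left₀ (by linarith) hr2 4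
  have h5 : 0 ≤ r ^ 4 := by positivity
  calc 4 * r ^ 4 * A + 2 * r ^ 2 * Fintype.card V ≤ 4 * r ^ 4 * A + 4 * r ^ 4 * Fintype.card V := by
        apply add_le_add le_rfl
        apply mul_le_mul_of_nonneg_right _ hV0
        linarith
    _ = r ^ 4 * (4 * (A + Fintype.card V)) := by ring
    _ ≤ ((d + 2) * L) ^ 4 * (4 * (A + Fintype.card V)) :=
        mul_le_mul_of_nonneg_right h4 (by positivity)
    _ = 4 * ((d : ℝ) + 2) ^ 4 * (A + Fintype.card V) * (L : ℝ) ^ 4 := by ring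

variable {V : Type} [DecidableEq V] [Fintype V]

/-- no mixed triangle of weight zero -/
def Sys.Good {β : Type} (S : Sys β) (gr : V → ℕ) (W : Sym2 V → ℤ) : Prop :=
  ∀ b1 b2 b3 u v w, gr u = S.X b1 → gr v = S.Y b1 → gr v = S.Y b2 → gr w = S.Z b2 →
    gr u = S.X b3 → gr w = S.Z b3 → W s(u, v) + W s(v, w) + W s(u, w) = 0 → b1 = b2

theorem Sys.prs_sub {β : Type} {S : Sys β} {gr : V → ℕ} {b : β} {u v w : V} (huv : u ≠ v)
    (hvw : v ≠ w) (huw : u ≠ w) (h1 : gr u = S.X b) (h2 : gr v = S.Y b) (h3 : gr w = S.Z b) :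
    prs ({u, v, w} : Finset V) ⊆ S.E gr b := by
  rw [prs_three huv hvw huw]
  intro p hp
  simp only [mem_insert, mem_singleton] at hp
  rcases hp with rfl | rfl | rfl
  · exact Sys.mem_E.2 (Or.inl (Or.inl ⟨h1, h2⟩))
  · exact Sys.mem_E.2 (Or.inl (Or.inr (Or.inl ⟨h2, h3⟩)))
  · exact Sys.mem_E.2 (Or.inl (Or.inr (Or.inr ⟨h1, h3⟩)))

theorem Sys.closed {β : Type} {S : Sys β} {gr : V → ℕ} {W : Sym2 V → ℤ} (hg : S.Good gr W) :
    ∀ K ∈ ZW W, (∀ p ∈ prs K, ∃ b, p ∈ S.E gr b) → ∃ b, prs K ⊆ S.E gr b := by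
  intro K hK h
  obtain ⟨u, v, w, b1, b2, b3, hKe, huv, hvw, huw, e1, e2, e3, e4, e5, e6⟩ :=
    Sys.tri (Finset.mem_filter.1 hK).2.1 h
  have h12 : b1 = b2 := hg b1 b2 b3 u v w e1 e2 e3 e4 e5 e6
    ((mem_ZW W huv hvw huw).1 (hKe ▸ hK))
  refine ⟨b1, ?_⟩
  rw [hKe]
  exact Sys.prs_sub huv hvw huw e1 e2 (h12 ▸ e4)

theorem Sys.card_le {β : Type} (S : Sys β) (gr : V → ℕ) (W : Sym2 V → ℤ) {q : ℕ}
    (hq : ∀ j, (univ.filter fun v => gr v = j).card ≤ q) (b : β) :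
    ((ZW W).filter fun K => prs K ⊆ S.E gr b).card ≤ q ^ 3 := by
  classical
  have h1 : ((ZW W).filter fun K => prs K ⊆ S.E gr b) ⊆
      ((univ.filter fun v => gr v = S.X b) ×ˢ ((univ.filter fun v => gr v = S.Y b) ×ˢ
        (univ.filter fun v => gr v = S.Z b))).image
        fun x => ({x.1, x.2.1, x.2.2} : Finset V) := by
    intro K hK
    obtain ⟨hKZ, hKE⟩ := Finset.mem_filter.1 hK
    obtain ⟨u, v, w, b1, b2, b3, hKe, huv, hvw, huw, e1, e2, e3, e4, e5, e6⟩ :=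
      Sys.tri (S := S) (gr := gr) (Finset.mem_filter.1 hKZ).2.1 fun p hp => ⟨b, hKE hp⟩
    have hb1 : b1 = b := by
      apply Sys.E_dis (S := S) (gr := gr) b1 b s(u, v)
      · exact Sys.mem_E.2 (Or.inl (Or.inl ⟨e1, e2⟩))
      · exact hKE (mem_prs.2 ⟨by simp [hKe], by simp [hKe], huv⟩)
    have hb2 : b2 = b := by
      apply Sys.E_dis (S := S) (gr := gr) b2 b s(v, w)
      · exact Sys.mem_E.2 (Or.inl (Or.inr (Or.inl ⟨e3, e4⟩)))
      · exact hKE (mem_prs.2 ⟨by simp [hKe], by simp [hKe], hvw⟩)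
    subst hb1
    refine Finset.mem_image.2 ⟨(u, (v, w)), ?_, hKe.symm⟩
    simp only [Finset.mem_product, Finset.mem_filter, Finset.mem_univ, true_and]
    exact ⟨e1, e2, by rw [e4, hb2]⟩
  refine (Finset.card_le_card h1).trans (Finset.card_image_le.trans ?_)
  rw [Finset.card_product, Finset.card_product]
  calc _ ≤ q * (q * q) := Nat.mul_le_mul (hq _) (Nat.mul_le_mul (hq _) (hq _))
    _ = q ^ 3 := by ring

/-- The inequality for systems of blocks. -/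
theorem core_sys {δ : ℝ} (hδ : 0 < δ) : ∃ c : ℝ, 0 < c ∧ ∀ (V : Type) [DecidableEq V] [Fintype V]
    (W : Sym2 V → ℤ) (β : Type) [Fintype β] (S : Sys β) (gr : V → ℕ) (q : ℕ), S.Good gr W →
    (∀ j, (univ.filter fun v => gr v = j).card ≤ q) →
    ∀ (Ω : Type) [Fintype Ω] (p : Ω → ℝ) (C : Ω → Circuit (Sym2 V)) (t A s : ℕ),
    Decides δ W p C → (∀ ω, (C ω).numNot ≤ t) → (∀ ω, numAnd (C ω) ≤ A) → (∀ ω, (C ω).s ≤ s) →
    3 / 4 * δ * ∑ b, (((ZW W).filter fun K => prs K ⊆ S.E gr b).card : ℝ) ≤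
      (q : ℝ) ^ 3 * (2 ^ t - 1) +
        Fintype.card β * (c * (A + Fintype.card V) * (Nat.log 2 (s + 2) : ℝ) ^ 4) := by
  obtain ⟨c, hc, h⟩ := core hδ
  refine ⟨c, hc, ?_⟩
  intro V _ _ W β _ S gr q hg hq Ω _ p C t A s hdec ht hA hs
  classical
  let e : Fin (Fintype.card β) ≃ β := (Fintype.equivFin β).symm
  have h1 := h V W (Fintype.card β) (fun i => S.E gr (e i)) (fun i => Sys.E_diag (e i))
    (fun i j p hi hj => e.injective (Sys.E_dis (e i) (e j) p hi hj))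
    (fun K hK hall => by
      obtain ⟨b, hb⟩ := Sys.closed hg K hK fun p hp => by
        obtain ⟨i, hi⟩ := hall p hp
        exact ⟨e i, hi⟩
      exact ⟨e.symm b, by simpa using hb⟩)
    Ω p C t A s hdec ht hA hs ((q : ℝ) ^ 3) (by positivity)
    (fun i => by exact_mod_cast S.card_le gr W hq (e i))
  rw [Equiv.sum_comp e fun b => (((ZW W).filter fun K => prs K ⊆ S.E gr b).card : ℝ)] at h1
  exact h1

end Pool.Agent.W2helper95.ET
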