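import Mathlib

/-!
# Numbers
-/

set_option autoImplicit false

open Finset

namespace Pool.Agent.W2helper95.ET

theorem num1 {B κ x : ℝ} (hB : 0 ≤ B) (hκ : 0 < κ) (hx : 1 ≤ x) :
    ∃ k : ℕ, 1 ≤ k ∧ B * x ≤ (k : ℝ) ^ (1 / κ) ∧ (k : ℝ) ^ 3 ≤ (B ^ κ + 1) ^ 3 * x ^ (3 * κ) := by
  have hx0 : 0 ≤ x := by linarith
  refine ⟨⌊(B * x) ^ κ⌋₊ + 1, by omega, ?_, ?_⟩
  · have h1 : (B * x) ^ κ ≤ ((⌊(B * x) ^ κ⌋₊ + 1 : ℕ) : ℝ) := by
      push_cast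
      exact (Nat.lt_floor_add_one _).le
    calc B * x = ((B * x) ^ κ) ^ (1 / κ) := by
          rw [← Real.rpow_mul (by positivity), mul_one_div_cancel hκ.ne', Real.rpow_one]
      _ ≤ _ := Real.rpow_le_rpow (by positivity) h1 (by positivity)
  · have h1 : ((⌊(B * x) ^ κ⌋₊ + 1 : ℕ) : ℝ) ≤ (B ^ κ + 1) * x ^ κ := by
      push_cast
      have h2 : (⌊(B * x) ^ κ⌋₊ : ℝ) ≤ (B * x) ^ κ := Nat.floor_le (by positivity)
      have h3 : (B * x) ^ κ = B ^ κ * x ^ κ := Real.mul_rpow hB hx0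
      have h4 : 1 ≤ x ^ κ := Real.one_le_rpow hx hκ.le
      calc (⌊(B * x) ^ κ⌋₊ : ℝ) + 1 ≤ (B * x) ^ κ + x ^ κ := add_le_add h2 h4
        _ = (B ^ κ + 1) * x ^ κ := by rw [h3]; ring
    calc _ ≤ ((B ^ κ + 1) * x ^ κ) ^ 3 := pow_le_pow_left₀ (Nat.cast_nonneg _) h1 3
      _ = (B ^ κ + 1) ^ 3 * x ^ (3 * κ) := by
          rw [mul_pow, ← Real.rpow_natCast (x ^ κ), ← Real.rpow_mul hx0]
          congr 2
          push_cast
          ring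

theorem num2 {n k A L : ℕ} {ρ c : ℝ} (hk : 1 ≤ k) (hL : 1 ≤ L) (hρ : 0 ≤ ρ) (hρ1 : ρ ≤ 1)
    (hc : 0 ≤ c)
    (h : 1 ≤ n / (6 * k) → ρ * ((n / (6 * k) : ℕ) : ℝ) ^ 3 ≤ c * (((A : ℝ) + n) * (L : ℝ) ^ 4)) :
    ρ * (n : ℝ) ^ 3 ≤ (36 + 1728 * c) * (k : ℝ) ^ 3 * (((A : ℝ) + n) * (L : ℝ) ^ 4) := by
  have hk1 : (1 : ℝ) ≤ k := by exact_mod_cast hk
  have hL1 : (1 : ℝ) ≤ (L : ℝ) ^ 4 := one_le_pow₀ (by exact_mod_cast hL)
  have hA : (0 : ℝ) ≤ A := Nat.cast_nonneg _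
  have hn : (0 : ℝ) ≤ n := Nat.cast_nonneg _
  set Λ : ℝ := ((A : ℝ) + n) * (L : ℝ) ^ 4 with hΛ
  have hΛn : (n : ℝ) ≤ Λ := by
    calc (n : ℝ) ≤ ((A : ℝ) + n) * 1 := by linarith
      _ ≤ Λ := mul_le_mul_of_nonneg_left hL1 (by linarith)
  have hΛ0 : 0 ≤ Λ := hn.trans hΛn
  by_cases hq : 1 ≤ n / (6 * k)
  · have h1 : n ≤ 12 * k * (n / (6 * k)) := by
      have h2 := Nat.div_add_mod n (6 * k)
      have h3 := Nat.mod_lt n (show 0 < 6 * k by omega)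
      have h4 : 6 * k * 1 ≤ 6 * k * (n / (6 * k)) := Nat.mul_le_mul_left _ hq
      have h5 : 12 * k * (n / (6 * k)) = 6 * k * (n / (6 * k)) + 6 * k * (n / (6 * k)) := by ring
      omega
    have h2 : (n : ℝ) ≤ 12 * k * ((n / (6 * k) : ℕ) : ℝ) := by exact_mod_cast h1
    have h3 : (n : ℝ) ^ 3 ≤ (12 * k * ((n / (6 * k) : ℕ) : ℝ)) ^ 3 := pow_le_pow_left₀ hn h2 3
    calc ρ * (n : ℝ) ^ 3 ≤ ρ * (12 * k * ((n / (6 * k) : ℕ) : ℝ)) ^ 3 :=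
          mul_le_mul_of_nonneg_left h3 hρ
      _ = 1728 * (k : ℝ) ^ 3 * (ρ * ((n / (6 * k) : ℕ) : ℝ) ^ 3) := by ring
      _ ≤ 1728 * (k : ℝ) ^ 3 * (c * Λ) := mul_le_mul_of_nonneg_left (h hq) (by positivity)
      _ ≤ _ := by
          have : 0 ≤ 36 * (k : ℝ) ^ 3 * Λ := by positivity
          linarith
  · have h1 : n < 6 * k := by
      by_contra hcon
      push Not at hcon
      exact hq (Nat.div_pos hcon (by omega))
    have h2 : (n : ℝ) ≤ 6 * k := by exact_mod_cast h1.le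
    have h3 : (n : ℝ) ^ 2 ≤ (6 * k) ^ 2 := pow_le_pow_left₀ hn h2 2
    calc ρ * (n : ℝ) ^ 3 ≤ 1 * (n : ℝ) ^ 3 := mul_le_mul_of_nonneg_right hρ1 (by positivity)
      _ = (n : ℝ) ^ 2 * n := by ring
      _ ≤ (6 * k) ^ 2 * Λ := mul_le_mul h3 hΛn hn (by positivity)
      _ = 36 * (k : ℝ) ^ 2 * Λ := by ring
      _ ≤ 36 * (k : ℝ) ^ 3 * Λ := by
          apply mul_le_mul_of_nonneg_right _ hΛ0
          have : (k : ℝ) ^ 2 ≤ (k : ℝ) ^ 3 := pow_le_pow_right₀ hk1 (by norm_num)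
          linarith
      _ ≤ _ := by
          have : 0 ≤ 1728 * c * (k : ℝ) ^ 3 * Λ := by positivity
          linarith

/-- Behrend's bound in the form of a power. -/
theorem roth_pow {η : ℝ} (hη : 0 < η) {k : ℕ} (hk : 1 ≤ k) :
    Real.exp (-(4 / η)) * (k : ℝ) ^ (2 - η) ≤ k * rothNumberNat k := by
  have hk0 : (0 : ℝ) < k := by exact_mod_cast hk
  have hlog : 0 ≤ Real.log k := Real.log_nonneg (by exact_mod_cast hk)
  have h1 := Behrend.roth_lower_bound (N := k)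
  have h2 : 4 * √(Real.log k) ≤ η * Real.log k + 4 / η := by
    have h3 := sq_nonneg (√η * √(Real.log k) - 2 / √η)
    have hs : 0 < √η := Real.sqrt_pos.2 hη
    have h4 : (√η * √(Real.log k) - 2 / √η) ^ 2 =
        η * Real.log k - 4 * √(Real.log k) + 4 / η := by
      have e1 : (√η) ^ 2 = η := Real.sq_sqrt hη.le
      have e2 : (√(Real.log k)) ^ 2 = Real.log k := Real.sq_sqrt hlog
      have e3 : (2 / √η) ^ 2 = 4 / η := by rw [div_pow, e1]; norm_num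
      have e4 : √η * (2 / √η) = 2 := by field_simp
      calc (√η * √(Real.log k) - 2 / √η) ^ 2 = (√η) ^ 2 * (√(Real.log k)) ^ 2 -
            2 * √(Real.log k) * (√η * (2 / √η)) + (2 / √η) ^ 2 := by ring
        _ = _ := by rw [e1, e2, e3, e4]; ring
    linarith
  have h5 : Real.exp (-(4 / η)) * (k : ℝ) ^ (-η) ≤ Real.exp (-4 * √(Real.log k)) := by
    rw [Real.rpow_def_of_pos hk0, ← Real.exp_add]
    apply Real.exp_le_exp.2
    linarith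
  calc Real.exp (-(4 / η)) * (k : ℝ) ^ (2 - η)
      = k * (k * (Real.exp (-(4 / η)) * (k : ℝ) ^ (-η))) := by
        rw [sub_eq_add_neg, Real.rpow_add hk0, Real.rpow_two]
        ring
    _ ≤ k * (k * Real.exp (-4 * √(Real.log k))) := by gcongr
    _ ≤ k * rothNumberNat k := by gcongr

end Pool.Agent.W2helper95.ET
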