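import Pool.Agent.W2helper95.ET.RS

/-!
# Averaging over the orders of the vertices
-/

set_option autoImplicit false

open Finset

namespace Pool.Agent.W2helper95.ET

theorem exists_perm3 {V : Type} [DecidableEq V] {a b c i j l : V} (hab : a ≠ b) (hac : a ≠ c)
    (hbc : b ≠ c) (hij : i ≠ j) (hil : i ≠ l) (hjl : j ≠ l) :
    ∃ σ : Equiv.Perm V, σ a = i ∧ σ b = j ∧ σ c = l := by
  obtain ⟨σ1, h1⟩ : ∃ σ : Equiv.Perm V, σ a = i := ⟨Equiv.swap a i, Equiv.swap_apply_left _ _⟩
  obtain ⟨σ2, h2, h3⟩ : ∃ σ : Equiv.Perm V, σ a = i ∧ σ b = j := by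
    refine ⟨Equiv.swap (σ1 b) j * σ1, ?_, ?_⟩
    · rw [Equiv.Perm.mul_apply, h1, Equiv.swap_apply_of_ne_of_ne]
      · intro h
        rw [← h1] at h
        exact hab (σ1.injective h)
      · exact hij
    · rw [Equiv.Perm.mul_apply, Equiv.swap_apply_left]
  refine ⟨Equiv.swap (σ2 c) l * σ2, ?_, ?_, ?_⟩
  · rw [Equiv.Perm.mul_apply, h2, Equiv.swap_apply_of_ne_of_ne]
    · intro h
      rw [← h2] at h
      exact hac (σ2.injective h)
    · exact hil
  · rw [Equiv.Perm.mul_apply, h3, Equiv.swap_apply_of_ne_of_ne]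
    · intro h
      rw [← h3] at h
      exact hbc (σ2.injective h)
    · exact hjl
  · rw [Equiv.Perm.mul_apply, Equiv.swap_apply_left]

theorem perm3 {V : Type} [DecidableEq V] [Fintype V] {a b c i j l : V} (hab : a ≠ b) (hac : a ≠ c)
    (hbc : b ≠ c) (hij : i ≠ j) (hil : i ≠ l) (hjl : j ≠ l) :
    Fintype.card (Equiv.Perm V) ≤ Fintype.card V ^ 3 *
      (univ.filter fun σ : Equiv.Perm V => (σ a, σ b, σ c) = (i, j, l)).card := by
  classical
  obtain ⟨σ1, g1, g2, g3⟩ := exists_perm3 hab hac hbc hij hil hjl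
  have h1 : ∀ x : V × V × V, (univ.filter fun σ : Equiv.Perm V => (σ a, σ b, σ c) = x).card ≤
      (univ.filter fun σ : Equiv.Perm V => (σ a, σ b, σ c) = (i, j, l)).card := by
    intro x
    by_cases hx : ∃ σ0 : Equiv.Perm V, (σ0 a, σ0 b, σ0 c) = x
    · obtain ⟨σ0, hσ0⟩ := hx
      apply Finset.card_le_card_of_injOn (fun σ => σ1 * σ0⁻¹ * σ)
      · intro σ hσ
        have hσ' : (σ a, σ b, σ c) = x := by
          simpa using hσ
        rw [← hσ0] at hσ'
        obtain ⟨e1, e2, e3⟩ : σ a = σ0 a ∧ σ b = σ0 b ∧ σ c = σ0 c := by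
          simpa [Prod.ext_iff] using hσ'
        simp [Equiv.Perm.mul_apply, e1, e2, e3, g1, g2, g3]
      · intro σ _ σ' _ h
        exact mul_left_cancel h
    · have : (univ.filter fun σ : Equiv.Perm V => (σ a, σ b, σ c) = x) = ∅ := by
        apply Finset.filter_eq_empty_iff.2
        intro σ _ h
        exact hx ⟨σ, h⟩
      rw [this, Finset.card_empty]
      exact Nat.zero_le _
  have h2 := Finset.card_eq_sum_card_fiberwise (s := (univ : Finset (Equiv.Perm V)))
    (t := (univ : Finset (V × V × V))) (f := fun σ => (σ a, σ b, σ c))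
    (fun σ _ => Finset.mem_coe.2 (mem_univ _))
  rw [← Finset.card_univ, h2]
  calc _ ≤ ∑ x : V × V × V,
        (univ.filter fun σ : Equiv.Perm V => (σ a, σ b, σ c) = (i, j, l)).card :=
        Finset.sum_le_sum fun x _ => h1 x
    _ = _ := by
        rw [Finset.sum_const, Finset.card_univ, Fintype.card_prod, Fintype.card_prod, smul_eq_mul]
        ring

/-- the group of the vertex -/
def grp (n q : ℕ) (σ : Equiv.Perm (Fin n)) (v : Fin n) : ℕ := (σ v).val / q

theorem grp_le {n q : ℕ} (hq : 0 < q) (σ : Equiv.Perm (Fin n)) (j : ℕ) :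
    (univ.filter fun v => grp n q σ v = j).card ≤ q := by
  calc _ ≤ (range q).card := by
        apply Finset.card_le_card_of_injOn (fun v => (σ v).val % q)
        · intro v _
          exact Finset.mem_coe.2 (Finset.mem_range.2 (Nat.mod_lt _ hq))
        · intro v hv v' hv' h
          have h1 : (σ v).val / q = j := by simpa [grp] using hv
          have h2 : (σ v').val / q = j := by simpa [grp] using hv'
          simp only at h
          have h3 := Nat.div_add_mod (σ v).val q
          have h4 := Nat.div_add_mod (σ v').val q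
          rw [h1, h] at h3
          rw [h2] at h4
          exact σ.injective (Fin.ext (by omega))
    _ = q := Finset.card_range q

theorem le_grp {n q : ℕ} (j : ℕ) (h : (j + 1) * q ≤ n) :
    q ≤ (univ.filter fun i : Fin n => i.val / q = j).card := by
  have hlt : ∀ r : Fin q, j * q + r.val < n := by
    intro r
    have := r.isLt
    have h2 : (j + 1) * q = j * q + q := by ring
    omega
  calc q = (univ : Finset (Fin q)).card := by rw [Finset.card_univ, Fintype.card_fin]
    _ ≤ _ := by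
        apply Finset.card_le_card_of_injOn (fun r : Fin q => (⟨j * q + r.val, hlt r⟩ : Fin n))
        · intro r _
          have hq : 0 < q := lt_of_le_of_lt (Nat.zero_le _) r.isLt
          simp only [Finset.coe_filter, Finset.mem_univ, true_and, Set.mem_ofPred_eq]
          rw [Nat.add_comm, Nat.add_mul_div_right _ _ hq, Nat.div_eq_of_lt r.isLt, Nat.zero_add]
        · intro r _ r' _ h
          have := Fin.mk.inj_iff.1 h
          exact Fin.ext (by omega)

/-- A good order of the vertices. -/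
theorem exists_order {β : Type} [Fintype β] (S : Sys β) {n q : ℕ}
    (hS : ∀ b, (S.Z b + 1) * q ≤ n) (W : Sym2 (Fin n) → ℤ) :
    ∃ σ : Equiv.Perm (Fin n), Fintype.card β * (ZW W).card * q ^ 3 ≤
      n ^ 3 * ∑ b, ((ZW W).filter fun K => prs K ⊆ S.E (grp n q σ) b).card := by
  classical
  -- one triangle and one block
  have h1 : ∀ K ∈ ZW W, ∀ b, q ^ 3 * Fintype.card (Equiv.Perm (Fin n)) ≤ n ^ 3 *
      (univ.filter fun σ : Equiv.Perm (Fin n) => prs K ⊆ S.E (grp n q σ) b).card := by
    intro K hK b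
    obtain ⟨u, v, w, huv, huw, hvw, hKe⟩ := Finset.card_eq_three.1 (Finset.mem_filter.1 hK).2.1
    set G : ℕ → Finset (Fin n) := fun j => univ.filter fun i : Fin n => i.val / q = j with hG
    set P := univ.filter fun σ : Equiv.Perm (Fin n) =>
      (σ u, σ v, σ w) ∈ G (S.X b) ×ˢ (G (S.Y b) ×ˢ G (S.Z b)) with hP
    have hx := S.hX b
    have hy := S.hY b
    have hz := S.hZ b
    have hPs : P ⊆ univ.filter fun σ : Equiv.Perm (Fin n) => prs K ⊆ S.E (grp n q σ) b := by
      intro σ hσ
      have h2 := (Finset.mem_filter.1 hσ).2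
      simp only [hG, Finset.mem_product, Finset.mem_filter, Finset.mem_univ, true_and] at h2
      refine Finset.mem_filter.2 ⟨mem_univ _, ?_⟩
      rw [hKe]
      exact Sys.prs_sub huv hvw huw h2.1 h2.2.1 h2.2.2
    have hPc := Finset.card_eq_sum_card_fiberwise (s := P)
      (t := G (S.X b) ×ˢ (G (S.Y b) ×ˢ G (S.Z b))) (f := fun σ => (σ u, σ v, σ w))
      (fun σ hσ => Finset.mem_coe.2 (Finset.mem_filter.1 (Finset.mem_coe.1 hσ)).2)
    have hfib : ∀ x ∈ G (S.X b) ×ˢ (G (S.Y b) ×ˢ G (S.Z b)),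
        Fintype.card (Equiv.Perm (Fin n)) ≤ n ^ 3 * (P.filter fun σ => (σ u, σ v, σ w) = x).card := by
      rintro ⟨i, j, l⟩ hx'
      have h2 := hx'
      simp only [hG, Finset.mem_product, Finset.mem_filter, Finset.mem_univ, true_and] at h2
      have hij : i ≠ j := by rintro rfl; omega
      have hil : i ≠ l := by rintro rfl; omega
      have hjl : j ≠ l := by rintro rfl; omega
      have h3 := perm3 huv huw hvw hij hil hjl
      rw [Fintype.card_fin] at h3
      have h4 : (univ.filter fun σ : Equiv.Perm (Fin n) => (σ u, σ v, σ w) = (i, j, l)) ⊆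
          P.filter fun σ => (σ u, σ v, σ w) = (i, j, l) := by
        intro σ hσ
        have h5 := (Finset.mem_filter.1 hσ).2
        refine Finset.mem_filter.2 ⟨Finset.mem_filter.2 ⟨mem_univ _, ?_⟩, h5⟩
        rw [h5]
        exact hx'
      exact h3.trans (Nat.mul_le_mul_left _ (Finset.card_le_card h4))
    have hGq : ∀ j, j ≤ S.Z b → q ≤ (G j).card := by
      intro j hj
      apply le_grp
      exact (Nat.mul_le_mul_right q (by omega)).trans (hS b)
    have hcard : q ^ 3 ≤ (G (S.X b) ×ˢ (G (S.Y b) ×ˢ G (S.Z b))).card := by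
      rw [Finset.card_product, Finset.card_product]
      calc q ^ 3 = q * (q * q) := by ring
        _ ≤ _ := Nat.mul_le_mul (hGq _ (by omega)) (Nat.mul_le_mul (hGq _ (by omega)) (hGq _ le_rfl))
    calc q ^ 3 * Fintype.card (Equiv.Perm (Fin n))
        ≤ (G (S.X b) ×ˢ (G (S.Y b) ×ˢ G (S.Z b))).card * Fintype.card (Equiv.Perm (Fin n)) :=
          Nat.mul_le_mul_right _ hcard
      _ = ∑ x ∈ G (S.X b) ×ˢ (G (S.Y b) ×ˢ G (S.Z b)), Fintype.card (Equiv.Perm (Fin n)) := by
          rw [Finset.sum_const, smul_eq_mul]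
      _ ≤ ∑ x ∈ G (S.X b) ×ˢ (G (S.Y b) ×ˢ G (S.Z b)),
            n ^ 3 * (P.filter fun σ => (σ u, σ v, σ w) = x).card := Finset.sum_le_sum hfib
      _ = n ^ 3 * P.card := by rw [← Finset.mul_sum, ← hPc]
      _ ≤ _ := Nat.mul_le_mul_left _ (Finset.card_le_card hPs)
  -- the average
  by_contra hcon
  push Not at hcon
  have h2 : ∑ σ : Equiv.Perm (Fin n),
      n ^ 3 * ∑ b, ((ZW W).filter fun K => prs K ⊆ S.E (grp n q σ) b).card <
      ∑ σ : Equiv.Perm (Fin n), Fintype.card β * (ZW W).card * q ^ 3 :=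
    Finset.sum_lt_sum_of_nonempty Finset.univ_nonempty fun σ _ => hcon σ
  have h3 : ∑ σ : Equiv.Perm (Fin n),
      n ^ 3 * ∑ b, ((ZW W).filter fun K => prs K ⊆ S.E (grp n q σ) b).card =
      ∑ b, ∑ K ∈ ZW W, n ^ 3 *
        (univ.filter fun σ : Equiv.Perm (Fin n) => prs K ⊆ S.E (grp n q σ) b).card := by
    simp only [Finset.card_filter, Finset.mul_sum]
    rw [Finset.sum_comm]
    refine Finset.sum_congr rfl fun b _ => ?_
    rw [Finset.sum_comm]
  have h4 : ∑ σ : Equiv.Perm (Fin n), Fintype.card β * (ZW W).card * q ^ 3 =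
      ∑ b : β, ∑ K ∈ ZW W, q ^ 3 * Fintype.card (Equiv.Perm (Fin n)) := by
    rw [Finset.sum_const, Finset.sum_const, Finset.sum_const, Finset.card_univ, Finset.card_univ]
    simp only [smul_eq_mul]
    ring
  rw [h3, h4] at h2
  exact absurd h2 (not_lt.2 (Finset.sum_le_sum fun b _ => Finset.sum_le_sum fun K hK => h1 K hK b))

end Pool.Agent.W2helper95.ET
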