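import Pool.Agent.W2helper95.ET.Core

/-!
# Systems of blocks from sets without arithmetic progressions of length three
-/

set_option autoImplicit false

open Finset

namespace Pool.Agent.W2helper95.ET

/-- The system of blocks for a set without arithmetic progressions of length three. -/
def rsSys (k : ℕ) (D : Finset ℕ) (hD : D ⊆ range k) : Sys (Fin k × {d // d ∈ D}) where
  X b := b.1.val
  Y b := k + (b.1.val + b.2.val)
  Z b := 3 * k + (b.1.val + 2 * b.2.val)
  k1 := k
  k2 := 3 * k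
  hX b := b.1.isLt
  hY b := by
    have h1 := b.1.isLt
    have h2 := Finset.mem_range.1 (hD b.2.2)
    constructor <;> omega
  hZ b := by omega
  iXY := by
    rintro ⟨x, d, hd⟩ ⟨x', d', hd'⟩ h1 h2
    simp only at h1 h2
    have e1 : x = x' := Fin.ext h1
    have e2 : d = d' := by omega
    subst e1 e2
    rfl
  iYZ := by
    rintro ⟨x, d, hd⟩ ⟨x', d', hd'⟩ h1 h2
    simp only at h1 h2
    have e2 : d = d' := by omega
    have e1 : x = x' := Fin.ext (by omega)
    subst e1 e2
    rfl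
  iXZ := by
    rintro ⟨x, d, hd⟩ ⟨x', d', hd'⟩ h1 h2
    simp only at h1 h2
    have e1 : x = x' := Fin.ext h1
    have e2 : d = d' := by omega
    subst e1 e2
    rfl

theorem rsSys_good {k : ℕ} {D : Finset ℕ} (hD : D ⊆ range k) (hap : ThreeAPFree (D : Set ℕ))
    {V : Type} (gr : V → ℕ) (W : Sym2 V → ℤ) : (rsSys k D hD).Good gr W := by
  rintro ⟨x1, d1, hd1⟩ ⟨x2, d2, hd2⟩ ⟨x3, d3, hd3⟩ u v w e1 e2 e3 e4 e5 e6 -
  simp only [rsSys] at e1 e2 e3 e4 e5 e6
  have h1 : d1 + d2 = d3 + d3 := by omega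
  have h2 : d1 = d3 := hap hd1 hd3 hd2 h1
  have h3 : d1 = d2 := by omega
  have h4 : x1 = x2 := Fin.ext (by omega)
  subst h4 h3
  rfl

theorem rsSys_Z_lt {k : ℕ} {D : Finset ℕ} (hD : D ⊆ range k) (b : Fin k × {d // d ∈ D}) :
    (rsSys k D hD).Z b < 6 * k := by
  have h1 := b.1.isLt
  have h2 := Finset.mem_range.1 (hD b.2.2)
  simp only [rsSys]
  omega

/-- The system of blocks of all pairs of numbers. -/
def addSys (k : ℕ) : Sys (Fin k × Fin k) where
  X b := b.1.val
  Y b := k + b.2.val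
  Z b := 3 * k + (b.1.val + b.2.val)
  k1 := k
  k2 := 3 * k
  hX b := b.1.isLt
  hY b := by
    have h2 := b.2.isLt
    constructor <;> omega
  hZ b := by omega
  iXY := by
    rintro ⟨x, d⟩ ⟨x', d'⟩ h1 h2
    simp only at h1 h2
    exact Prod.ext (Fin.ext h1) (Fin.ext (by simp only; omega))
  iYZ := by
    rintro ⟨x, d⟩ ⟨x', d'⟩ h1 h2
    simp only at h1 h2
    exact Prod.ext (Fin.ext (by simp only; omega)) (Fin.ext (by simp only; omega))
  iXZ := by
    rintro ⟨x, d⟩ ⟨x', d'⟩ h1 h2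
    simp only at h1 h2
    exact Prod.ext (Fin.ext h1) (Fin.ext (by simp only; omega))

/-- The potential of the group. -/
def pot (k g : ℕ) : ℤ := if g < k then g else if g < 3 * k then (g : ℤ) - k else 3 * k - g

/-- The weight of a pair is the sum of the potentials. -/
def potW {V : Type} (k : ℕ) (gr : V → ℕ) : Sym2 V → ℤ :=
  Sym2.lift ⟨fun u v => pot k (gr u) + pot k (gr v), fun _ _ => add_comm _ _⟩

theorem potW_mk {V : Type} (k : ℕ) (gr : V → ℕ) (u v : V) :
    potW k gr s(u, v) = pot k (gr u) + pot k (gr v) := rfl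

theorem addSys_zero {k : ℕ} {V : Type} {gr : V → ℕ} {b : Fin k × Fin k} {u v w : V}
    (h1 : gr u = (addSys k).X b) (h2 : gr v = (addSys k).Y b) (h3 : gr w = (addSys k).Z b) :
    potW k gr s(u, v) + potW k gr s(v, w) + potW k gr s(u, w) = 0 := by
  simp only [potW_mk, pot, h1, h2, h3, addSys]
  have := b.1.isLt
  have := b.2.isLt
  split_ifs <;> push_cast <;> omega

theorem addSys_good {k : ℕ} {V : Type} (gr : V → ℕ) :
    (addSys k).Good gr (potW k gr) := by
  intro b1 b2 b3 u v w e1 e2 e3 e4 e5 e6 h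
  rw [potW_mk, potW_mk, potW_mk] at h
  rw [e1, e2, e4] at h
  rw [e2] at e3
  simp only [addSys, pot] at h e3 e5 e6
  have i1 := b1.1.isLt
  have i2 := b1.2.isLt
  have i3 := b2.1.isLt
  have i4 := b2.2.isLt
  have hX : b1.1.val < k := i1
  rw [if_pos hX, if_neg (by omega), if_pos (by omega), if_neg (by omega), if_neg (by omega)] at h
  push_cast at h
  exact Prod.ext (Fin.ext (by omega)) (Fin.ext (by omega))

theorem addSys_Z_lt {k : ℕ} (b : Fin k × Fin k) : (addSys k).Z b < 6 * k := by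
  have h1 := b.1.isLt
  have h2 := b.2.isLt
  simp only [addSys]
  omega

end Pool.Agent.W2helper95.ET
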