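import Pool.Agent.W2helper95.ET.Big

/-!
# Counting triangles
-/

set_option autoImplicit false

open Finset

namespace Pool.Agent.W2helper95.ET

variable {V : Type} [DecidableEq V] [Fintype V]

/-- the pairs of distinct elements -/
def prs (K : Finset V) : Finset (Sym2 V) := K.sym2.filter fun p => ¬ p.IsDiag

omit [Fintype V] in
theorem mem_prs {K : Finset V} {a b : V} : s(a, b) ∈ prs K ↔ a ∈ K ∧ b ∈ K ∧ a ≠ b := by
  unfold prs
  rw [Finset.mem_filter, Finset.mk_mem_sym2_iff, Sym2.mk_isDiag_iff, and_assoc]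

/-- the ends of a pair -/
def ends (p : Sym2 V) : Finset V := univ.filter fun v => v ∈ p

theorem ends_mk (a b : V) : ends s(a, b) = {a, b} := by
  ext v
  simp [ends]

/-- two different pairs determine a triangle -/
theorem tri_eq {K : Finset V} (hK : K.card = 3) {p q : Sym2 V} (hp : p ∈ prs K) (hq : q ∈ prs K)
    (hpq : p ≠ q) : ends p ∪ ends q = K := by
  induction p with
  | _ a b =>
  induction q with
  | _ c d =>
  obtain ⟨ha, hb, hab⟩ := mem_prs.1 hp
  obtain ⟨hc, hd, hcd⟩ := mem_prs.1 hq
  rw [ends_mk, ends_mk]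
  apply Finset.eq_of_subset_of_card_le
  · intro v hv
    simp only [mem_union, mem_insert, mem_singleton] at hv
    rcases hv with (rfl | rfl) | (rfl | rfl) <;> assumption
  · rw [hK]
    have key : ∀ e : V, e ≠ a → e ≠ b → e ∈ ({a, b} ∪ {c, d} : Finset V) →
        3 ≤ ({a, b} ∪ {c, d} : Finset V).card := by
      intro e h1 h2 h3
      have h4 : ({a, b, e} : Finset V) ⊆ {a, b} ∪ {c, d} := by
        intro v hv
        simp only [mem_insert, mem_singleton] at hv
        rcases hv with rfl | rfl | rfl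
        · simp
        · simp
        · exact h3
      have h5 : ({a, b, e} : Finset V).card = 3 :=
        Finset.card_eq_three.2 ⟨a, b, e, hab, fun h => h1 h.symm, fun h => h2 h.symm, rfl⟩
      rw [← h5]
      exact Finset.card_le_card h4
    by_cases h1 : c ≠ a ∧ c ≠ b
    · exact key c h1.1 h1.2 (by simp)
    · by_cases h2 : d ≠ a ∧ d ≠ b
      · exact key d h2.1 h2.2 (by simp)
      · exfalso
        apply hpq
        rw [Sym2.eq_iff]
        have h1' : c = a ∨ c = b := by tauto
        have h2' : d = a ∨ d = b := by tauto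
        rcases h1' with rfl | rfl <;> rcases h2' with rfl | rfl
        · exact (hcd rfl).elim
        · exact Or.inl ⟨rfl, rfl⟩
        · exact Or.inr ⟨rfl, rfl⟩
        · exact (hcd rfl).elim

theorem lost_card {T : Finset (Finset V)} (hT : ∀ K ∈ T, K.card = 3) (H H' : Finset (Sym2 V)) :
    (T.filter fun K => ∃ p ∈ H, ∃ q ∈ H', p ≠ q ∧ p ∈ prs K ∧ q ∈ prs K).card ≤
      H.card * H'.card := by
  have h1 : (T.filter fun K => ∃ p ∈ H, ∃ q ∈ H', p ≠ q ∧ p ∈ prs K ∧ q ∈ prs K) ⊆
      (H ×ˢ H').image fun x => ends x.1 ∪ ends x.2 := by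
    intro K hK
    obtain ⟨hKT, p, hp, q, hq, hpq, hpK, hqK⟩ := Finset.mem_filter.1 hK
    exact Finset.mem_image.2 ⟨(p, q), Finset.mk_mem_product hp hq, tri_eq (hT K hKT) hpK hqK hpq⟩
  exact (Finset.card_le_card h1).trans (Finset.card_image_le.trans (Finset.card_product _ _).le)

theorem meet_card {T : Finset (Finset V)} (hT : ∀ K ∈ T, K.card = 3) (H : Finset (Sym2 V)) :
    (T.filter fun K => ∃ p ∈ H, p ∈ prs K).card ≤ H.card * Fintype.card V := by
  have h1 : (T.filter fun K => ∃ p ∈ H, p ∈ prs K) ⊆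
      (H ×ˢ (univ : Finset V)).image fun x => insert x.2 (ends x.1) := by
    intro K hK
    obtain ⟨hKT, p, hp, hpK⟩ := Finset.mem_filter.1 hK
    induction p with
    | _ a b =>
    obtain ⟨ha, hb, hab⟩ := mem_prs.1 hpK
    have hsub : ({a, b} : Finset V) ⊆ K := by
      intro v hv
      simp only [mem_insert, mem_singleton] at hv
      rcases hv with rfl | rfl <;> assumption
    have hlt : ({a, b} : Finset V).card < K.card := by
      rw [hT K hKT, Finset.card_pair hab]
      norm_num
    obtain ⟨v, hvK, hv⟩ := Finset.exists_mem_notMem_of_card_lt_card hlt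
    refine Finset.mem_image.2 ⟨(s(a, b), v), Finset.mk_mem_product hp (mem_univ _), ?_⟩
    simp only
    rw [ends_mk]
    apply Finset.eq_of_subset_of_card_le
    · exact Finset.insert_subset hvK hsub
    · rw [Finset.card_insert_of_notMem hv, Finset.card_pair hab, hT K hKT]
  refine (Finset.card_le_card h1).trans (Finset.card_image_le.trans ?_)
  rw [Finset.card_product, Finset.card_univ]

/-- a triangle has a pair of one colour -/
theorem not_bic_tri (g : V → Bool) {K : Finset V} (hK : K.card = 3)
    (h : ∀ p ∈ prs K, bic g p = true) : False := by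
  obtain ⟨a, b, c, hab, hac, hbc, rfl⟩ := Finset.card_eq_three.1 hK
  have h1 := (bic_mk g a b).1 (h _ (mem_prs.2 ⟨by simp, by simp, hab⟩))
  have h2 := (bic_mk g a c).1 (h _ (mem_prs.2 ⟨by simp, by simp, hac⟩))
  have h3 := (bic_mk g b c).1 (h _ (mem_prs.2 ⟨by simp, by simp, hbc⟩))
  revert h1 h2 h3
  cases g a <;> cases g b <;> cases g c <;> simp

end Pool.Agent.W2helper95.ET
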