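import Pool.Agent.W2helper95.ET.Defs

/-!
# Circuits which read the edge flags and the weights

The inputs of the circuits are named by `I ⊕ J`: the edge flags are the inputs `Sum.inl e`, the
inputs `Sum.inr j` are data about the weights, for example their binary digits.
-/

set_option autoImplicit false

namespace Pool.Agent.W2helper95.ET

open Pool.Agent.W2helper76.RW

variable {I J : Type}

/-- The gate `i` depends on the edge flags: there is a path to it from an input gate for an edge
flag. -/
def flag (C : Circuit (I ⊕ J)) (i : Fin C.s) : Bool :=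
  match h : C.gate i with
  | Gate.inp p => p.isLeft
  | Gate.const _ => false
  | Gate.not a => have := C.not_lt i a h; flag C a
  | Gate.and a b => have := C.and_lt i a b h; flag C a || flag C b
  | Gate.or a b => have := C.or_lt i a b h; flag C a || flag C b
termination_by i.val
decreasing_by all_goals first | exact this | exact this.1 | exact this.2

/-- The number of the NOT gates which depend on the edge flags. -/
noncomputable def flagNot (C : Circuit (I ⊕ J)) : ℕ :=
  {i : Fin C.s | flag C i = true ∧ ∃ a, C.gate i = Gate.not a}.ncard

/-- The number of the AND gates which depend on the edge flags. -/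
noncomputable def flagAnd (C : Circuit (I ⊕ J)) : ℕ :=
  {i : Fin C.s | flag C i = true ∧ ∃ a b, C.gate i = Gate.and a b}.ncard

open Classical in
/-- The random circuit is `C ω` with probability `p ω`; it reads the edge flags `x` and the data
`w` about the weights `W`. It decides with gap `δ` whether the graph with the edge flags `x` has a
triangle of total weight zero: for some `θ` it accepts with probability at least `θ + δ` if there
is such a triangle, and with probability at most `θ` if not, for all edge flags `x`. -/
def DecidesW {V J Ω : Type} [Fintype Ω] (δ : ℝ) (W : Sym2 V → ℤ) (w : J → Bool) (p : Ω → ℝ)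
    (C : Ω → Circuit (Sym2 V ⊕ J)) : Prop :=
  (∀ ω, 0 ≤ p ω) ∧ ∑ ω, p ω = 1 ∧ ∃ θ : ℝ, ∀ x : Sym2 V → Bool,
    (HasZeroTriangle W x →
      θ + δ ≤ ∑ ω, p ω * (if (C ω).eval (Sum.elim x w) = true then 1 else 0)) ∧
    (¬ HasZeroTriangle W x →
      ∑ ω, p ω * (if (C ω).eval (Sum.elim x w) = true then 1 else 0) ≤ θ)

theorem flag_inp {C : Circuit (I ⊕ J)} {i : Fin C.s} {p : I ⊕ J} (h : C.gate i = Gate.inp p) :
    flag C i = p.isLeft := by
  rw [flag]; split <;> simp_all

theorem flag_not {C : Circuit (I ⊕ J)} {i a : Fin C.s} (h : C.gate i = Gate.not a) :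
    flag C i = flag C a := by
  rw [flag]; split <;> simp_all

theorem flag_and {C : Circuit (I ⊕ J)} {i a b : Fin C.s} (h : C.gate i = Gate.and a b) :
    flag C i = (flag C a || flag C b) := by
  rw [flag]; split <;> simp_all

theorem flag_or {C : Circuit (I ⊕ J)} {i a b : Fin C.s} (h : C.gate i = Gate.or a b) :
    flag C i = (flag C a || flag C b) := by
  rw [flag]; split <;> simp_all

/-- The value of a gate which does not depend on the edge flags. -/
theorem val_flag (C : Circuit (I ⊕ J)) (x y : I → Bool) (w : J → Bool) :
    ∀ (n : ℕ) (i : Fin C.s), i.val = n → flag C i = false →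
      C.val (Sum.elim x w) i = C.val (Sum.elim y w) i := by
  intro n
  induction n using Nat.strong_induction_on with
  | _ n ih =>
  intro i hi hf
  cases h : C.gate i with
  | inp p =>
    rw [C.val_inp h, C.val_inp h]
    rw [flag_inp h] at hf
    cases p with
    | inl q => simp at hf
    | inr j => rfl
  | const c => rw [C.val_const h, C.val_const h]
  | not a =>
    rw [flag_not h] at hf
    rw [C.val_not h, C.val_not h]
    have h1 := C.not_lt i a h
    rw [ih a.val (by rw [← hi]; exact h1) a rfl hf]
  | and a b =>
    rw [flag_and h, Bool.or_eq_false_iff] at hf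
    rw [C.val_and h, C.val_and h]
    have h1 := C.and_lt i a b h
    rw [ih a.val (by rw [← hi]; exact h1.1) a rfl hf.1,
      ih b.val (by rw [← hi]; exact h1.2) b rfl hf.2]
  | or a b =>
    rw [flag_or h, Bool.or_eq_false_iff] at hf
    rw [C.val_or h, C.val_or h]
    have h1 := C.or_lt i a b h
    rw [ih a.val (by rw [← hi]; exact h1.1) a rfl hf.1,
      ih b.val (by rw [← hi]; exact h1.2) b rfl hf.2]

/-- The gates of the circuit with fixed weights. -/
noncomputable def fixGate (C : Circuit (I ⊕ J)) (w : J → Bool) (i : Fin C.s) : Gate I C.s :=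
  match flag C i, C.gate i with
  | false, _ => Gate.const (C.val (Sum.elim (fun _ => false) w) i)
  | true, Gate.inp (Sum.inl p) => Gate.inp p
  | true, Gate.inp (Sum.inr j) => Gate.const (w j)
  | true, Gate.const c => Gate.const c
  | true, Gate.not a => Gate.not a
  | true, Gate.and a b => Gate.and a b
  | true, Gate.or a b => Gate.or a b

theorem fixGate_not {C : Circuit (I ⊕ J)} {w : J → Bool} {i a : Fin C.s}
    (h : fixGate C w i = Gate.not a) : flag C i = true ∧ C.gate i = Gate.not a := by
  unfold fixGate at h
  cases hf : flag C i with
  | false => rw [hf] at h; simp at h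
  | true =>
    rw [hf] at h
    refine ⟨rfl, ?_⟩
    cases hg : C.gate i with
    | inp p => rw [hg] at h; cases p <;> simp at h
    | const c => rw [hg] at h; simp at h
    | not a' => rw [hg] at h; simp at h; rw [h]
    | and a' b' => rw [hg] at h; simp at h
    | or a' b' => rw [hg] at h; simp at h

theorem fixGate_and {C : Circuit (I ⊕ J)} {w : J → Bool} {i a b : Fin C.s}
    (h : fixGate C w i = Gate.and a b) : flag C i = true ∧ C.gate i = Gate.and a b := by
  unfold fixGate at h
  cases hf : flag C i with
  | false => rw [hf] at h; simp at h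
  | true =>
    rw [hf] at h
    refine ⟨rfl, ?_⟩
    cases hg : C.gate i with
    | inp p => rw [hg] at h; cases p <;> simp at h
    | const c => rw [hg] at h; simp at h
    | not a' => rw [hg] at h; simp at h
    | and a' b' => rw [hg] at h; simp at h; rw [h.1, h.2]
    | or a' b' => rw [hg] at h; simp at h

theorem fixGate_or {C : Circuit (I ⊕ J)} {w : J → Bool} {i a b : Fin C.s}
    (h : fixGate C w i = Gate.or a b) : flag C i = true ∧ C.gate i = Gate.or a b := by
  unfold fixGate at h
  cases hf : flag C i with
  | false => rw [hf] at h; simp at h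
  | true =>
    rw [hf] at h
    refine ⟨rfl, ?_⟩
    cases hg : C.gate i with
    | inp p => rw [hg] at h; cases p <;> simp at h
    | const c => rw [hg] at h; simp at h
    | not a' => rw [hg] at h; simp at h
    | and a' b' => rw [hg] at h; simp at h
    | or a' b' => rw [hg] at h; simp at h; rw [h.1, h.2]

/-- The circuit with fixed weights. -/
noncomputable def fixC (C : Circuit (I ⊕ J)) (w : J → Bool) : Circuit I where
  s := C.s
  gate := fixGate C w
  out := C.out
  not_lt i a h := C.not_lt i a (fixGate_not h).2
  and_lt i a b h := C.and_lt i a b (fixGate_and h).2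
  or_lt i a b h := C.or_lt i a b (fixGate_or h).2

theorem fixC_val (C : Circuit (I ⊕ J)) (w : J → Bool) (x : I → Bool) :
    ∀ (n : ℕ) (i : Fin C.s), i.val = n → (fixC C w).val x i = C.val (Sum.elim x w) i := by
  intro n
  induction n using Nat.strong_induction_on with
  | _ n ih =>
  intro i hi
  cases hf : flag C i with
  | false =>
    have h1 : (fixC C w).gate i = Gate.const (C.val (Sum.elim (fun _ => false) w) i) := by
      change fixGate C w i = _
      unfold fixGate
      rw [hf]
      rfl
    rw [(fixC C w).val_const h1]
    exact val_flag C _ _ w i.val i rfl hf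
  | true =>
    cases hg : C.gate i with
    | inp p =>
      cases p with
      | inl q =>
        have h1 : (fixC C w).gate i = Gate.inp q := by
          change fixGate C w i = _
          unfold fixGate
          rw [hf, hg]
          rfl
        rw [(fixC C w).val_inp h1, C.val_inp hg]
        rfl
      | inr j =>
        have h1 : (fixC C w).gate i = Gate.const (w j) := by
          change fixGate C w i = _
          unfold fixGate
          rw [hf, hg]
          rfl
        rw [(fixC C w).val_const h1, C.val_inp hg]
        rfl
    | const c =>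
      have h1 : (fixC C w).gate i = Gate.const c := by
        change fixGate C w i = _
        unfold fixGate
        rw [hf, hg]
        rfl
      rw [(fixC C w).val_const h1, C.val_const hg]
    | not a =>
      have h1 : (fixC C w).gate i = Gate.not a := by
        change fixGate C w i = _
        unfold fixGate
        rw [hf, hg]
      rw [(fixC C w).val_not h1, C.val_not hg]
      have h2 := C.not_lt i a hg
      rw [ih a.val (by rw [← hi]; exact h2) a rfl]
    | and a b =>
      have h1 : (fixC C w).gate i = Gate.and a b := by
        change fixGate C w i = _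
        unfold fixGate
        rw [hf, hg]
      rw [(fixC C w).val_and h1, C.val_and hg]
      have h2 := C.and_lt i a b hg
      rw [ih a.val (by rw [← hi]; exact h2.1) a rfl, ih b.val (by rw [← hi]; exact h2.2) b rfl]
    | or a b =>
      have h1 : (fixC C w).gate i = Gate.or a b := by
        change fixGate C w i = _
        unfold fixGate
        rw [hf, hg]
      rw [(fixC C w).val_or h1, C.val_or hg]
      have h2 := C.or_lt i a b hg
      rw [ih a.val (by rw [← hi]; exact h2.1) a rfl, ih b.val (by rw [← hi]; exact h2.2) b rfl]

theorem fixC_eval (C : Circuit (I ⊕ J)) (w : J → Bool) (x : I → Bool) :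
    (fixC C w).eval x = C.eval (Sum.elim x w) := fixC_val C w x C.out.val C.out rfl

theorem fixC_numNot (C : Circuit (I ⊕ J)) (w : J → Bool) : (fixC C w).numNot ≤ flagNot C := by
  unfold Circuit.numNot flagNot
  apply Set.ncard_le_ncard _ (Set.toFinite _)
  rintro i ⟨a, h⟩
  have h1 := fixGate_not (C := C) (w := w) (i := i) (a := a) h
  exact ⟨h1.1, a, h1.2⟩

theorem fixC_numAnd (C : Circuit (I ⊕ J)) (w : J → Bool) : numAnd (fixC C w) ≤ flagAnd C := by
  unfold numAnd flagAnd
  apply Set.ncard_le_ncard _ (Set.toFinite _)
  rintro i ⟨a, b, h⟩
  have h1 := fixGate_and (C := C) (w := w) (i := i) (a := a) (b := b) h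
  exact ⟨h1.1, a, b, h1.2⟩

theorem fixC_decides {V J Ω : Type} [Fintype Ω] {δ : ℝ} {W : Sym2 V → ℤ} {w : J → Bool}
    {p : Ω → ℝ} {C : Ω → Circuit (Sym2 V ⊕ J)} (h : DecidesW δ W w p C) :
    Decides δ W p fun ω => fixC (C ω) w := by
  obtain ⟨hp, hp1, θ, hθ⟩ := h
  refine ⟨hp, hp1, θ, fun x => ?_⟩
  unfold accProb
  simp only [fixC_eval]
  exact hθ x

end Pool.Agent.W2helper95.ET
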