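import Pool.Agent.W2helper95.ET.Approx

/-!
# The windows of a circuit
-/

set_option autoImplicit false

open Finset

namespace Pool.Agent.W2helper95.ET

open Pool.Agent.W2helper76.RW

variable {V : Type} [DecidableEq V] [Fintype V]

/-- the input with the content `z` of the window -/
def inw (E : Finset (Sym2 V)) (u z : Sym2 V → Bool) : Sym2 V → Bool :=
  Circuit.inpt (wnd E) u z

omit [Fintype V] in
theorem inw_mem {E : Finset (Sym2 V)} {u z : Sym2 V → Bool} {p : Sym2 V} (hp : p ∈ E) :
    inw E u z p = z p := by
  unfold inw Circuit.inpt wnd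
  rw [if_pos hp]

omit [Fintype V] in
theorem inw_not_mem {E : Finset (Sym2 V)} {u z : Sym2 V → Bool} {p : Sym2 V} (hp : p ∉ E) :
    inw E u z p = u p := by
  unfold inw Circuit.inpt wnd
  rw [if_neg hp]

/-- The window as a monotone function, up to changes of the NOT gates. -/
theorem win (C : Circuit (Sym2 V)) (E : Finset (Sym2 V)) (u : Sym2 V → Bool) :
    ∃ G : Finset (Fin C.s),
      (∀ z, C.eval (inw E u z) = true →
        ∃ i ∈ G, (C.fr (wnd E) u (C.val (inw E u fun _ => false)) i).eval z = true) ∧
      (∀ z, ¬ C.Changed (C.depth C.out) (inw E u fun _ => false) (inw E u z) →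
        (∃ i ∈ G, (C.fr (wnd E) u (C.val (inw E u fun _ => false)) i).eval z = true) →
        C.eval (inw E u z) = true) := by
  classical
  set D0 := C.depth C.out with hD0
  set x0 := inw E u (fun _ => false) with hx0
  set v0 : Fin C.s → Bool := C.val x0 with hv0
  set F := C.fr (wnd E) u v0 with hF
  let arg : Fin C.s → Fin C.s := fun j => if h : C.IsNot j then h.choose else j
  have harg : ∀ j, C.IsNot j → C.gate j = Gate.not (arg j) := by
    intro j h
    simp only [arg, dif_pos h]
    exact h.choose_spec
  set J := (C.nots D0).filter (fun j => v0 j = true) with hJ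
  refine ⟨insert C.out (J.image arg), ?_, ?_⟩
  · intro z hC
    by_contra hcon
    push Not at hcon
    have hbase := C.fr_eval_same (D := D0) (wnd E) u v0 (fun _ => false) (fun j _ => rfl)
    have hcond : ∀ j ∈ C.nots D0, ∀ a, C.gate j = Gate.not a →
        (!(C.fr (wnd E) u v0 a).eval z) = v0 j := by
      intro j hj a ha
      have hja : arg j = a := by
        have := harg j ⟨a, ha⟩
        rw [ha] at this
        exact (Gate.not.inj this).symm
      have hda : C.depth a ≤ D0 := by
        rw [← C.depth_not ha]; exact (C.mem_nots.1 hj).2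
      cases hv : v0 j with
      | true =>
        have h1 : (F (arg j)).eval z ≠ true :=
          hcon _ (Finset.mem_insert_of_mem (Finset.mem_image.2
            ⟨j, Finset.mem_filter.2 ⟨hj, hv⟩, rfl⟩))
        rw [hja] at h1
        have h1' : (F a).eval z = false := by simpa using h1
        rw [← hF, h1']; rfl
      | false =>
        have h1 : (F a).eval (fun _ => false) = true := by
          rw [hF, hbase _ a rfl hda]
          have : v0 j = !(C.val x0 a) := by rw [hv0]; exact C.val_not ha
          rw [hv] at this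
          have h2 : C.val x0 a = true := by simpa using this.symm
          exact h2
        have h2 : (F a).eval z = true :=
          MF.eval_mono (F a) (z := fun _ => false) (z' := z) (fun _ h => by simp at h) h1
        rw [← hF, h2]; rfl
    have h1 := C.fr_eval (D := D0) (wnd E) u v0 z hcond _ C.out rfl le_rfl
    apply hcon C.out (Finset.mem_insert_self _ _)
    rw [hF, h1]
    exact hC
  · rintro z hz ⟨i, hi, hiz⟩
    have hsame : ∀ j ∈ C.nots D0, C.val (Circuit.inpt (wnd E) u z) j = v0 j := by
      intro j hj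
      by_contra hne
      exact hz ⟨j, hj, fun h => hne h.symm⟩
    have hval := C.fr_eval_same (D := D0) (wnd E) u v0 z hsame
    rcases Finset.mem_insert.1 hi with h | h
    · rw [h, hF, hval _ C.out rfl le_rfl] at hiz
      exact hiz
    · exfalso
      obtain ⟨j, hj, rfl⟩ := Finset.mem_image.1 h
      rw [hJ, Finset.mem_filter] at hj
      have h1 := C.depth_not (harg j (C.mem_nots.1 hj.1).1)
      rw [hF, hval _ (arg j) rfl (by rw [← h1]; exact (C.mem_nots.1 hj.1).2)] at hiz
      have h2 := hsame j hj.1
      rw [C.val_not (harg j (C.mem_nots.1 hj.1).1), hj.2, hiz] at h2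
      simp at h2

/-- the bound for the number of accepted triangles -/
noncomputable def Lam (V : Type) [Fintype V] (r : ℕ) (C : Circuit (Sym2 V)) : ℕ :=
  4 * r ^ 4 * numAnd C + 2 * r ^ 2 * Fintype.card V

/-- **The dichotomy.** A window either accepts almost all bipartite graphs, up to changes of the
NOT gates, or few triangles. -/
theorem dich (C : Circuit (Sym2 V)) {E : Finset (Sym2 V)} (hE : ∀ p ∈ E, ¬ p.IsDiag)
    (u : Sym2 V → Bool) {T : Finset (Finset V)} (hT : ∀ K ∈ T, K.card = 3) {r : ℕ} (hr : 1 ≤ r) :
    (∃ R : Finset (V → Bool), R.card * 2 ^ r ≤ (C.s + 1) * 2 ^ Fintype.card V ∧ ∀ g, g ∉ R →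
      C.eval (inw E u (bic g)) = true ∨
        C.Changed (C.depth C.out) (inw E u fun _ => false) (inw E u (bic g))) ∨
    (T.filter fun K => C.eval (inw E u (zK K)) = true).card ≤ Lam V r C := by
  classical
  obtain ⟨G, hG1, hG2⟩ := win C E u
  obtain ⟨A, L, R, hL, hR, hA⟩ := approx (C := C) (E := E) (u := u)
    (v0 := C.val (inw E u fun _ => false)) (T := T) (r := r) hE hT hr C.s le_rfl
  have hA' : ∀ i, Gd C E u (C.val (inw E u fun _ => false)) T r L R i (A i) :=
    fun i => hA i i.isLt
  have hL' : L.card ≤ 4 * r ^ 4 * numAnd C := hL.trans (Nat.mul_le_mul_left _ (ands_le C C.s))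
  -- if the window is accepted by the approximator
  have hacc : ∀ (i : Fin C.s), i ∈ G → ∀ g, g ∉ R → acc (A i) (bic g) →
      C.eval (inw E u (bic g)) = true ∨
        C.Changed (C.depth C.out) (inw E u fun _ => false) (inw E u (bic g)) := by
    intro i hi g hg h
    by_cases hc : C.Changed (C.depth C.out) (inw E u fun _ => false) (inw E u (bic g))
    · exact Or.inr hc
    · exact Or.inl (hG2 _ hc ⟨i, hi, (hA' i).2.2 g hg h⟩)
  by_cases hnone : ∃ i ∈ G, A i = none
  · left
    obtain ⟨i, hi, hAi⟩ := hnone
    refine ⟨R, hR.trans (Nat.mul_le_mul_right _ (by omega)), fun g hg => ?_⟩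
    exact hacc i hi g hg (by rw [hAi]; trivial)
  · push Not at hnone
    set H : Finset (Sym2 V) := G.biUnion fun i => (A i).getD ∅ with hH
    have hHi : ∀ i ∈ G, ∃ Hi, A i = some Hi ∧ Hi ⊆ H ∧ Hi ⊆ E := by
      intro i hi
      obtain ⟨Hi, hHi⟩ := Option.ne_none_iff_exists'.1 (hnone i hi)
      refine ⟨Hi, hHi, ?_, ((hA' i).1 Hi hHi).1⟩
      intro p hp
      exact Finset.mem_biUnion.2 ⟨i, hi, by rw [hHi]; exact hp⟩
    by_cases hbig : Big r H
    · left
      refine ⟨R ∪ mono H, ?_, fun g hg => ?_⟩
      · have h1 := card_mono hbig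
        have h2 := Finset.card_union_le R (mono H)
        have h3 := Nat.mul_le_mul_right (2 ^ r) h2
        rw [add_mul] at h3
        have h4 : (C.s + 1) * 2 ^ Fintype.card V =
            C.s * 2 ^ Fintype.card V + 2 ^ Fintype.card V := by ring
        omega
      · rw [Finset.mem_union, not_or] at hg
        have h1 : ∃ p ∈ H, bic g p = true := by
          by_contra hcon
          push Not at hcon
          exact hg.2 (Finset.mem_filter.2 ⟨mem_univ _, hcon⟩)
        obtain ⟨p, hp, hpg⟩ := h1
        obtain ⟨i, hi, hpi⟩ := Finset.mem_biUnion.1 hp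
        obtain ⟨Hi, hHi', -, -⟩ := hHi i hi
        rw [hHi'] at hpi
        exact hacc i hi g hg.1 (by rw [hHi']; exact ⟨p, hpi, hpg⟩)
    · right
      have hHE : H ⊆ E := by
        intro p hp
        obtain ⟨i, hi, hpi⟩ := Finset.mem_biUnion.1 hp
        obtain ⟨Hi, hHi', -, h2⟩ := hHi i hi
        rw [hHi'] at hpi
        exact h2 hpi
      have hHc := card_le_of_not_big (fun p hp => hE p (hHE hp)) hbig
      have hsub : (T.filter fun K => C.eval (inw E u (zK K)) = true) ⊆
          L ∪ (T.filter fun K => ∃ p ∈ H, p ∈ prs K) := by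
        intro K hK
        obtain ⟨hKT, hKe⟩ := Finset.mem_filter.1 hK
        by_cases hKL : K ∈ L
        · exact Finset.mem_union_left _ hKL
        · apply Finset.mem_union_right
          refine Finset.mem_filter.2 ⟨hKT, ?_⟩
          obtain ⟨i, hi, hiz⟩ := hG1 _ hKe
          have h1 := (hA' i).2.1 K hKT hKL hiz
          obtain ⟨Hi, hHi', hs, -⟩ := hHi i hi
          rw [hHi'] at h1
          obtain ⟨p, hp, hpz⟩ := h1
          exact ⟨p, hs hp, (zK_iff K p).1 hpz⟩
      refine (Finset.card_le_card hsub).trans ((Finset.card_union_le _ _).trans ?_)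
      unfold Lam
      exact Nat.add_le_add hL' ((meet_card hT H).trans (Nat.mul_le_mul_right _ hHc))

open Classical in
/-- the indicator -/
noncomputable def ind (P : Prop) : ℝ := if P then 1 else 0

theorem ind_nonneg (P : Prop) : 0 ≤ ind P := by unfold ind; split_ifs <;> norm_num

theorem ind_le (P : Prop) : ind P ≤ 1 := by unfold ind; split_ifs <;> norm_num

theorem ind_pos {P : Prop} (h : P) : ind P = 1 := if_pos h

/-- the dichotomy, as an inequality of averages -/
theorem dich_sum (C : Circuit (Sym2 V)) {E : Finset (Sym2 V)} (hE : ∀ p ∈ E, ¬ p.IsDiag)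
    (u : Sym2 V → Bool) {T : Finset (Finset V)} (hT : ∀ K ∈ T, K.card = 3) {r : ℕ} (hr : 1 ≤ r) :
    (∑ K ∈ T, ind (C.eval (inw E u (zK K)) = true)) * 2 ^ Fintype.card V ≤
      T.card * ∑ g : V → Bool, (ind (C.eval (inw E u (bic g)) = true) +
        ind (C.Changed (C.depth C.out) (inw E u fun _ => false) (inw E u (bic g)))) +
      ((C.s + 1) / 2 ^ r * T.card + Lam V r C) * 2 ^ Fintype.card V := by
  classical
  have hN : (0 : ℝ) < 2 ^ Fintype.card V := by positivity
  have hT0 : (0 : ℝ) ≤ T.card := Nat.cast_nonneg _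
  have hle : ∑ K ∈ T, ind (C.eval (inw E u (zK K)) = true) ≤ T.card := by
    calc ∑ K ∈ T, ind (C.eval (inw E u (zK K)) = true) ≤ ∑ K ∈ T, (1 : ℝ) :=
          Finset.sum_le_sum fun K _ => ind_le _
      _ = T.card := by simp
  have hG0 : ∀ g : V → Bool, 0 ≤ ind (C.eval (inw E u (bic g)) = true) +
        ind (C.Changed (C.depth C.out) (inw E u fun _ => false) (inw E u (bic g))) :=
    fun g => add_nonneg (ind_nonneg _) (ind_nonneg _)
  rcases dich C hE u hT hr with ⟨R, hR, hg⟩ | h
  · have h1 : (2 : ℝ) ^ Fintype.card V - R.card ≤ ∑ g : V → Bool,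
        (ind (C.eval (inw E u (bic g)) = true) +
        ind (C.Changed (C.depth C.out) (inw E u fun _ => false) (inw E u (bic g)))) := by
      have h2 : ∑ g ∈ (univ \ R : Finset (V → Bool)), (1 : ℝ) ≤ ∑ g : V → Bool,
          (ind (C.eval (inw E u (bic g)) = true) +
          ind (C.Changed (C.depth C.out) (inw E u fun _ => false) (inw E u (bic g)))) := by
        refine le_trans (Finset.sum_le_sum (f := fun _ => (1 : ℝ))
          (g := fun g => ind (C.eval (inw E u (bic g)) = true) +
          ind (C.Changed (C.depth C.out) (inw E u fun _ => false) (inw E u (bic g))))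
          fun g hgR => ?_) (Finset.sum_le_sum_of_subset_of_nonneg (Finset.sdiff_subset)
            fun g _ _ => hG0 g)
        have hgR' := (Finset.mem_sdiff.1 hgR).2
        rcases hg g hgR' with h | h
        · have := ind_nonneg (C.Changed (C.depth C.out) (inw E u fun _ => false)
            (inw E u (bic g)))
          rw [ind_pos h]
          linarith
        · have := ind_nonneg (C.eval (inw E u (bic g)) = true)
          rw [ind_pos h]
          linarith
      have h3 : ∑ g ∈ (univ \ R : Finset (V → Bool)), (1 : ℝ) = 2 ^ Fintype.card V - R.card := by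
        rw [Finset.sum_const, nsmul_eq_mul, mul_one, Finset.card_sdiff, Finset.inter_univ,
          Finset.card_univ, Fintype.card_fun, Fintype.card_bool, Nat.cast_sub]
        · push_cast
          ring
        · have := Finset.card_le_univ R
          rwa [Fintype.card_fun, Fintype.card_bool] at this
      rw [← h3]
      exact h2
    have h4 : (R.card : ℝ) ≤ (C.s + 1) / 2 ^ r * 2 ^ Fintype.card V := by
      have h5 : ((R.card * 2 ^ r : ℕ) : ℝ) ≤ (((C.s + 1) * 2 ^ Fintype.card V : ℕ) : ℝ) := by
        exact_mod_cast hR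
      push_cast at h5
      have h6 : (0 : ℝ) < 2 ^ r := by positivity
      rw [div_mul_eq_mul_div, le_div_iff₀ h6]
      exact h5
    have h7 : (0 : ℝ) ≤ Lam V r C := Nat.cast_nonneg _
    calc (∑ K ∈ T, ind (C.eval (inw E u (zK K)) = true)) * 2 ^ Fintype.card V
        ≤ T.card * 2 ^ Fintype.card V := mul_le_mul_of_nonneg_right hle hN.le
      _ = T.card * (2 ^ Fintype.card V - R.card) + T.card * R.card := by ring
      _ ≤ T.card * ∑ g : V → Bool, (ind (C.eval (inw E u (bic g)) = true) +
            ind (C.Changed (C.depth C.out) (inw E u fun _ => false) (inw E u (bic g)))) +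
          T.card * ((C.s + 1) / 2 ^ r * 2 ^ Fintype.card V) :=
          add_le_add (mul_le_mul_of_nonneg_left h1 hT0) (mul_le_mul_of_nonneg_left h4 hT0)
      _ ≤ _ := by
          have : (0 : ℝ) ≤ Lam V r C * 2 ^ Fintype.card V := by positivity
          linarith
  · have h1 : ∑ K ∈ T, ind (C.eval (inw E u (zK K)) = true) ≤ Lam V r C := by
      have h2 : ∑ K ∈ T, ind (C.eval (inw E u (zK K)) = true) =
          ((T.filter fun K => C.eval (inw E u (zK K)) = true).card : ℝ) := by
        unfold ind
        rw [← Finset.sum_boole]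
        refine Finset.sum_congr rfl fun K _ => ?_
        split_ifs <;> rfl
      rw [h2]
      exact_mod_cast h
    have h3 : 0 ≤ (T.card : ℝ) * ∑ g : V → Bool, (ind (C.eval (inw E u (bic g)) = true) +
        ind (C.Changed (C.depth C.out) (inw E u fun _ => false) (inw E u (bic g)))) :=
      mul_nonneg hT0 (Finset.sum_nonneg fun g _ => hG0 g)
    have h4 : (0 : ℝ) ≤ (C.s + 1) / 2 ^ r * T.card := by positivity
    have h5 := mul_le_mul_of_nonneg_right h1 hN.le
    have h6 : 0 ≤ (C.s + 1) / 2 ^ r * (T.card : ℝ) * 2 ^ Fintype.card V := by positivity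
    linarith

end Pool.Agent.W2helper95.ET
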