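import Pool.Agent.W2helper95.ET.Avg

/-!
# Triangles of weight zero, and blocks given by groups of vertices
-/

set_option autoImplicit false

open Finset

namespace Pool.Agent.W2helper95.ET

open Pool.Agent.W2helper76.RW

variable {V : Type} [DecidableEq V] [Fintype V]

/-- the sets of three vertices whose pairs have the total weight zero -/
def ZW (W : Sym2 V → ℤ) : Finset (Finset V) :=
  univ.filter fun K => K.card = 3 ∧ ∑ p ∈ prs K, W p = 0

omit [Fintype V] in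
theorem prs_three {a b c : V} (hab : a ≠ b) (hbc : b ≠ c) (hac : a ≠ c) :
    prs ({a, b, c} : Finset V) = {s(a, b), s(b, c), s(a, c)} := by
  ext p
  induction p with
  | _ u v =>
  rw [mem_prs]
  simp only [mem_insert, mem_singleton, Sym2.eq_iff]
  constructor
  · rintro ⟨rfl | rfl | rfl, rfl | rfl | rfl, h⟩ <;> simp at h ⊢
  · rintro ((⟨rfl, rfl⟩ | ⟨rfl, rfl⟩) | (⟨rfl, rfl⟩ | ⟨rfl, rfl⟩) | (⟨rfl, rfl⟩ | ⟨rfl, rfl⟩)) <;>
      simp [hab, hbc, hac, hab.symm, hbc.symm, hac.symm]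

omit [Fintype V] in
theorem sum_prs {a b c : V} (hab : a ≠ b) (hbc : b ≠ c) (hac : a ≠ c) (f : Sym2 V → ℤ) :
    ∑ p ∈ prs ({a, b, c} : Finset V), f p = f s(a, b) + f s(b, c) + f s(a, c) := by
  rw [prs_three hab hbc hac, Finset.sum_insert, Finset.sum_insert, Finset.sum_singleton, add_assoc]
  · rw [Finset.mem_singleton, Sym2.eq_iff]
    rintro (⟨h, -⟩ | ⟨h, -⟩)
    · exact hab h.symm
    · exact hbc h
  · rw [Finset.mem_insert, Finset.mem_singleton, Sym2.eq_iff, Sym2.eq_iff]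
    rintro ((⟨h, -⟩ | ⟨h, -⟩) | (⟨-, h⟩ | ⟨h, -⟩))
    · exact hab h
    · exact hac h
    · exact hbc h
    · exact hac h

theorem mem_ZW (W : Sym2 V → ℤ) {a b c : V} (hab : a ≠ b) (hbc : b ≠ c) (hac : a ≠ c) :
    ({a, b, c} : Finset V) ∈ ZW W ↔ W s(a, b) + W s(b, c) + W s(a, c) = 0 := by
  unfold ZW
  rw [Finset.mem_filter, sum_prs hab hbc hac]
  constructor
  · exact fun h => h.2.2
  · exact fun h => ⟨mem_univ _, Finset.card_eq_three.2 ⟨a, b, c, hab, hac, hbc, rfl⟩, h⟩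

theorem has_iff (W : Sym2 V → ℤ) (x : Sym2 V → Bool) : Has (ZW W) x ↔ HasZeroTriangle W x := by
  constructor
  · rintro ⟨K, hK, h⟩
    have hK3 : K.card = 3 := (Finset.mem_filter.1 hK).2.1
    obtain ⟨a, b, c, hab, hac, hbc, rfl⟩ := Finset.card_eq_three.1 hK3
    refine ⟨a, b, c, hab, hbc, hac, h _ ?_, h _ ?_, h _ ?_, (mem_ZW W hab hbc hac).1 hK⟩
    · exact mem_prs.2 ⟨by simp, by simp, hab⟩
    · exact mem_prs.2 ⟨by simp, by simp, hbc⟩
    · exact mem_prs.2 ⟨by simp, by simp, hac⟩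
  · rintro ⟨a, b, c, hab, hbc, hac, h1, h2, h3, hW⟩
    refine ⟨{a, b, c}, (mem_ZW W hab hbc hac).2 hW, ?_⟩
    intro p hp
    rw [prs_three hab hbc hac] at hp
    simp only [mem_insert, mem_singleton] at hp
    rcases hp with rfl | rfl | rfl <;> assumption

/-- A system of blocks: three groups of vertices for each block. -/
structure Sys (β : Type) where
  /-- the first group of the block -/
  X : β → ℕ
  /-- the second group of the block -/
  Y : β → ℕ
  /-- the third group of the block -/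
  Z : β → ℕ
  /-- first bound -/
  k1 : ℕ
  /-- second bound -/
  k2 : ℕ
  hX : ∀ b, X b < k1
  hY : ∀ b, k1 ≤ Y b ∧ Y b < k2
  hZ : ∀ b, k2 ≤ Z b
  iXY : ∀ b b', X b = X b' → Y b = Y b' → b = b'
  iYZ : ∀ b b', Y b = Y b' → Z b = Z b' → b = b'
  iXZ : ∀ b b', X b = X b' → Z b = Z b' → b = b'

variable {β : Type} (S : Sys β) (gr : V → ℕ)

/-- the kinds of the pairs of a block -/
def Sys.J (b : β) (u v : V) : Prop :=
  (gr u = S.X b ∧ gr v = S.Y b) ∨ (gr u = S.Y b ∧ gr v = S.Z b) ∨ (gr u = S.X b ∧ gr v = S.Z b)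

open Classical in
/-- the pairs of the block -/
noncomputable def Sys.E (b : β) : Finset (Sym2 V) :=
  univ.filter fun p => ∃ u v, p = s(u, v) ∧ S.J gr b u v

variable {S gr}

theorem Sys.mem_E {b : β} {u v : V} : s(u, v) ∈ S.E gr b ↔ S.J gr b u v ∨ S.J gr b v u := by
  unfold Sys.E
  simp only [Finset.mem_filter, Finset.mem_univ, true_and]
  constructor
  · rintro ⟨c, d, h, hJ⟩
    rcases Sym2.eq_iff.1 h with ⟨rfl, rfl⟩ | ⟨rfl, rfl⟩
    · exact Or.inl hJ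
    · exact Or.inr hJ
  · rintro (h | h)
    · exact ⟨u, v, rfl, h⟩
    · exact ⟨v, u, Sym2.eq_swap, h⟩

omit [DecidableEq V] [Fintype V] in
theorem Sys.J_lt {b : β} {u v : V} (h : S.J gr b u v) : gr u < gr v := by
  have h1 := S.hX b
  have h2 := S.hY b
  have h3 := S.hZ b
  rcases h with ⟨h4, h5⟩ | ⟨h4, h5⟩ | ⟨h4, h5⟩ <;> omega

theorem Sys.E_diag (b : β) : ∀ p ∈ S.E gr b, ¬ p.IsDiag := by
  intro p
  induction p with
  | _ u v =>
  intro hp hd
  rw [Sym2.mk_isDiag_iff] at hd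
  subst hd
  rcases Sys.mem_E.1 hp with h | h <;> exact absurd (Sys.J_lt h) (lt_irrefl _)

omit [DecidableEq V] [Fintype V] in
theorem Sys.J_dis {b b' : β} {u v : V} (h : S.J gr b u v) (h' : S.J gr b' u v) : b = b' := by
  have h1 := S.hX b
  have h2 := S.hY b
  have h3 := S.hZ b
  have h1' := S.hX b'
  have h2' := S.hY b'
  have h3' := S.hZ b'
  rcases h with ⟨h4, h5⟩ | ⟨h4, h5⟩ | ⟨h4, h5⟩ <;>
    rcases h' with ⟨h4', h5'⟩ | ⟨h4', h5'⟩ | ⟨h4', h5'⟩
  · exact S.iXY b b' (by omega) (by omega)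
  · omega
  · omega
  · omega
  · exact S.iYZ b b' (by omega) (by omega)
  · omega
  · omega
  · omega
  · exact S.iXZ b b' (by omega) (by omega)

theorem Sys.E_dis (b b' : β) (p : Sym2 V) (h : p ∈ S.E gr b) (h' : p ∈ S.E gr b') : b = b' := by
  induction p with
  | _ u v =>
  rcases Sys.mem_E.1 h with h | h <;> rcases Sys.mem_E.1 h' with h' | h'
  · exact Sys.J_dis h h'
  · have := Sys.J_lt h; have := Sys.J_lt h'; omega
  · have := Sys.J_lt h; have := Sys.J_lt h'; omega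
  · exact Sys.J_dis h h'

/-- a triangle of the union of the blocks has a vertex in each of the three parts -/
theorem Sys.tri {K : Finset V} (hK : K.card = 3) (h : ∀ p ∈ prs K, ∃ b, p ∈ S.E gr b) :
    ∃ u v w b1 b2 b3, K = {u, v, w} ∧ u ≠ v ∧ v ≠ w ∧ u ≠ w ∧ gr u = S.X b1 ∧ gr v = S.Y b1 ∧
      gr v = S.Y b2 ∧ gr w = S.Z b2 ∧ gr u = S.X b3 ∧ gr w = S.Z b3 := by
  have key : ∀ a b c : V, a ≠ b → b ≠ c → a ≠ c → K = {a, b, c} → gr a < gr b → gr b < gr c →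
      ∃ u v w b1 b2 b3, K = {u, v, w} ∧ u ≠ v ∧ v ≠ w ∧ u ≠ w ∧ gr u = S.X b1 ∧ gr v = S.Y b1 ∧
      gr v = S.Y b2 ∧ gr w = S.Z b2 ∧ gr u = S.X b3 ∧ gr w = S.Z b3 := by
    intro a b c hab hbc hac hKe h1 h2
    obtain ⟨b1, hb1⟩ := h s(a, b) (mem_prs.2 ⟨by simp [hKe], by simp [hKe], hab⟩)
    obtain ⟨b2, hb2⟩ := h s(b, c) (mem_prs.2 ⟨by simp [hKe], by simp [hKe], hbc⟩)
    obtain ⟨b3, hb3⟩ := h s(a, c) (mem_prs.2 ⟨by simp [hKe], by simp [hKe], hac⟩)
    have j1 : S.J gr b1 a b := by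
      rcases Sys.mem_E.1 hb1 with j | j
      · exact j
      · have := Sys.J_lt j; omega
    have j2 : S.J gr b2 b c := by
      rcases Sys.mem_E.1 hb2 with j | j
      · exact j
      · have := Sys.J_lt j; omega
    have j3 : S.J gr b3 a c := by
      rcases Sys.mem_E.1 hb3 with j | j
      · exact j
      · have := Sys.J_lt j; omega
    have x1 := S.hX b1
    have y1 := S.hY b1
    have z1 := S.hZ b1
    have x2 := S.hX b2
    have y2 := S.hY b2
    have z2 := S.hZ b2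
    have x3 := S.hX b3
    have y3 := S.hY b3
    have z3 := S.hZ b3
    refine ⟨a, b, c, b1, b2, b3, hKe, hab, hbc, hac, ?_⟩
    rcases j1 with ⟨p1, q1⟩ | ⟨p1, q1⟩ | ⟨p1, q1⟩
    · rcases j2 with ⟨p2, q2⟩ | ⟨p2, q2⟩ | ⟨p2, q2⟩
      · omega
      · rcases j3 with ⟨p3, q3⟩ | ⟨p3, q3⟩ | ⟨p3, q3⟩
        · omega
        · omega
        · exact ⟨p1, q1, p2, q2, p3, q3⟩
      · omega
    · rcases j2 with ⟨p2, q2⟩ | ⟨p2, q2⟩ | ⟨p2, q2⟩ <;> omega
    · rcases j2 with ⟨p2, q2⟩ | ⟨p2, q2⟩ | ⟨p2, q2⟩ <;> omega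
  obtain ⟨a, b, c, hab, hac, hbc, hKe⟩ := Finset.card_eq_three.1 hK
  have hne : ∀ u v : V, u ≠ v → u ∈ K → v ∈ K → gr u ≠ gr v := by
    intro u v huv hu hv heq
    obtain ⟨b', hb'⟩ := h s(u, v) (mem_prs.2 ⟨hu, hv, huv⟩)
    rcases Sys.mem_E.1 hb' with j | j
    · have := Sys.J_lt j; omega
    · have := Sys.J_lt j; omega
  have n1 := hne a b hab (by simp [hKe]) (by simp [hKe])
  have n2 := hne b c hbc (by simp [hKe]) (by simp [hKe])
  have n3 := hne a c hac (by simp [hKe]) (by simp [hKe])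
  rcases lt_or_gt_of_ne n1 with l1 | l1 <;> rcases lt_or_gt_of_ne n2 with l2 | l2 <;>
    rcases lt_or_gt_of_ne n3 with l3 | l3
  · exact key a b c hab hbc hac hKe l1 l2
  · omega
  · exact key a c b hac hbc.symm hab (by rw [hKe]; ext x; simp; tauto) l3 l2
  · exact key c a b hac.symm hab hbc.symm (by rw [hKe]; ext x; simp; tauto) l3 l1
  · exact key b a c hab.symm hac hbc (by rw [hKe]; ext x; simp; tauto) l1 l3
  · exact key b c a hbc hac.symm hab.symm (by rw [hKe]; ext x; simp; tauto) l2 l3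
  · omega
  · exact key c b a hbc.symm hab.symm hac.symm (by rw [hKe]; ext x; simp; tauto) l2 l1

end Pool.Agent.W2helper95.ET
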